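import Pool.Agent.RX.MinusD

/-!
# The minus row (helper66, for ISO_FAR)

Legs at `z`, `|Re z| < 7 l / 10`; content `mu : Fin m → ℂ` with `|Re| ≤ l / 2` (both groups, equal
rows allowed); removed row `y`, `|Re y| < 13 l / 10`.

* `Jp_gen` : pairwise different heights: the sum over the states;
* `Jp_tendsto` : joint continuity in `z`, `mu`, `y`;
* `Jp_diff` : analyticity in `y`;  `Jp_perm`;
* **`Jp_self`** : `Jp z (x₀, x) x₀ = nz z x x`, all rows;
* **`J_zeros`** : `Jp z mu y - Jm z mu y = (∏ j, (y - mu j)) * Q y`, `Q` analytic.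
-/

set_option autoImplicit false
set_option linter.unusedSectionVars false

noncomputable section

open Complex Filter Topology

namespace Pool.Agent.RX

open NUP1 (l lpos St sta sw pr qu nq crq sta_cons sta_mul sta_congr pr_pos)
open NUP1.Grand (P)
open NUP1 (Gr)
open PBR (rh rh_ne_zero differentiableAt_rh)
open PBX (Rws DZ Lg SpA Lg_SpA K3 pull pull_Rws pull_tendsto)
open Pool.Agent.PB

variable {m : ℕ}

/-! ### the factor of a quantum -/

theorem sJ_self (z y : ℂ) : sJ z y y = 0 := by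
  unfold sJ
  rw [sub_self, Complex.sin_zero]
  ring

theorem sJ_meas (z y : ℂ) : Measurable (sJ z y) := by
  have h := PBX.Lg_meas z z
  unfold sJ
  exact h.mul (by fun_prop)

theorem sin_ne_08 {w : ℂ} (h1 : 0 < w.re) (h2 : w.re < 8 * l) : sin w ≠ 0 := by
  have h8 : 8 * l = Real.pi := by unfold NUP1.l; ring
  exact NUP1.Bd.sin_ne_zero_of_re (Real.sin_pos_of_pos_of_lt_pi h1 (by linarith)).ne'

theorem J_gr (α β : ℝ) (y : ℂ) :
    Gr α β 0 fun u => sin (u - y) * sin (u - y - 2 * l) / sin (u - y + 3 * l) ^ 2 := by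
  have h1 := Gr.sin (α := α) (β := β) y
  have h2 := Gr.sin (α := α) (β := β) (y + 2 * l)
  have h3 := Gr.inv_sin (α := α) (β := β) (y - 3 * l)
  refine (((h1.mul h2).mul (h3.mul h3)).mono (κ' := 0) (by norm_num)).congr 0 fun u _ _ _ => ?_
  rw [show u - (y + 2 * (l : ℂ)) = u - y - 2 * l by ring,
    show u - (y - 3 * (l : ℂ)) = u - y + 3 * l by ring, div_eq_mul_inv, sq, mul_inv]

/-- the removed row is a spectator of the contour identity -/
theorem sJ_SpA {z y : ℂ} (hz : z ∈ LS) (hy : |y.re| < 13 / 10 * l) : SpA (sJ z y) where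
  meas := sJ_meas z y
  diff u h3 h4 := by
    have hl := lpos
    obtain ⟨h5, h6⟩ := abs_lt.1 hy
    have e : (u - y + 3 * (l : ℂ)).re = u.re - y.re + 3 * l := by simp
    have hs : sin (u - y + 3 * l) ^ 2 ≠ 0 :=
      pow_ne_zero _ (sin_ne_08 (by rw [e]; linarith) (by rw [e]; linarith))
    unfold sJ
    refine ((Lg_SpA hz.1 hz.2).diff u h3 h4).mul ?_
    fun_prop (disch := exact hs)
  gr := by
    have := (Lg_SpA (q := z) hz.1 hz.2).gr.mul (J_gr (3 / 5 * l) (-(17 / 10 * l)) y)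
    rw [zero_add] at this
    exact this

/-- ratio of sines on a vertical line -/
theorem ratio_norm {v : ℂ} {c ε : ℝ} (hε : 0 < ε) (h : ε ≤ Real.sin v.re) :
    ‖sin (v - c) / sin v‖ ≤ 1 + 1 / ε := by
  have hs0 : 0 < ‖sin v‖ := by
    rw [norm_pos_iff]
    intro h0
    have h1 := nsin v
    rw [h0, norm_zero] at h1
    nlinarith [sq_nonneg (Real.sinh v.im), pow_pos (hε.trans_le h) 2]
  have hc : ‖cos v‖ ≤ 1 / ε * ‖sin v‖ := by
    have h1 := nsin v
    have h2 := ncos v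
    have h3 : Real.sin v.re ≤ 1 := Real.sin_le_one _
    have hε1 : ε ≤ 1 := h.trans h3
    have h4 : ‖cos v‖ ^ 2 ≤ (1 / ε * ‖sin v‖) ^ 2 := by
      rw [mul_pow, h1, h2, div_pow, one_pow, div_mul_eq_mul_div, one_mul, le_div_iff₀ (by positivity)]
      have h5 : ε ^ 2 ≤ Real.sin v.re ^ 2 := pow_le_pow_left₀ hε.le h 2
      have h6 : ε ^ 2 ≤ 1 := pow_le_one₀ hε.le hε1
      have h7 := Real.cos_sq_le_one v.re
      nlinarith [sq_nonneg (Real.sinh v.im), sq_nonneg (Real.cos v.re),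
        mul_le_mul_of_nonneg_left h6 (sq_nonneg (Real.sinh v.im)),
        mul_le_mul_of_nonneg_left h7 (sq_nonneg ε)]
    exact le_of_sq_le_sq h4 (by positivity)
  have e1 : sin (v - c) / sin v = cos c - sin c * (cos v / sin v) := by
    rw [Complex.sin_sub]
    have : sin v ≠ 0 := norm_pos_iff.1 hs0
    field_simp
  have h5 : ‖cos (c : ℂ)‖ ≤ 1 ∧ ‖sin (c : ℂ)‖ ≤ 1 := by
    rw [← Complex.ofReal_cos, ← Complex.ofReal_sin, Complex.norm_real, Complex.norm_real]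
    exact ⟨Real.abs_cos_le_one _, Real.abs_sin_le_one _⟩
  rw [e1]
  have h6 : ‖cos v / sin v‖ ≤ 1 / ε := by
    rw [norm_div, div_le_iff₀ hs0]
    exact hc
  calc ‖cos (c : ℂ) - sin (c : ℂ) * (cos v / sin v)‖ ≤
      ‖cos (c : ℂ)‖ + ‖sin (c : ℂ) * (cos v / sin v)‖ := norm_sub_le _ _
    _ ≤ 1 + 1 * (1 / ε) := by
        rw [norm_mul]
        exact add_le_add h5.1 (mul_le_mul h5.2 h6 (norm_nonneg _) zero_le_one)
    _ = 1 + 1 / ε := by ring

theorem J_norm {y u : ℂ} {ε : ℝ} (hε : 0 < ε) (h : ε ≤ Real.sin (u.re - y.re + 3 * l)) :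
    ‖sin (u - y) * sin (u - y - 2 * l) / sin (u - y + 3 * l) ^ 2‖ ≤ (1 + 1 / ε) ^ 2 := by
  set v : ℂ := u - y + 3 * l with hv
  have hre : v.re = u.re - y.re + 3 * l := by rw [hv]; simp
  have a1 := ratio_norm (v := v) (c := 3 * l) hε (by rw [hre]; exact h)
  have a2 := ratio_norm (v := v) (c := 5 * l) hε (by rw [hre]; exact h)
  have e : sin (u - y) * sin (u - y - 2 * l) / sin v ^ 2 =
      sin (v - ((3 * l : ℝ) : ℂ)) / sin v * (sin (v - ((5 * l : ℝ) : ℂ)) / sin v) := by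
    rw [show v - ((3 * l : ℝ) : ℂ) = u - y by rw [hv]; push_cast; ring,
      show v - ((5 * l : ℝ) : ℂ) = u - y - 2 * l by rw [hv]; push_cast; ring]
    ring
  rw [e, norm_mul, sq]
  exact mul_le_mul a1 a2 (norm_nonneg _) (by positivity)

/-- positivity on the three lines -/
theorem K3_posJ {y : ℂ} (hy : |y.re| < 13 / 10 * l) {r : ℝ} (hr : r ∈ K3) :
    0 < Real.sin (r - y.re + 3 * l) := by
  have hl := lpos
  obtain ⟨h1, h2⟩ := abs_lt.1 hy
  simp only [PBX.K3, Set.mem_insert_iff, Set.mem_singleton_iff] at hr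
  have h8 : 8 * l = Real.pi := by unfold NUP1.l; ring
  rcases hr with rfl | rfl | rfl
  · exact Real.sin_pos_of_pos_of_lt_pi (by linarith) (by linarith)
  · exact Real.sin_pos_of_pos_of_lt_pi (by linarith) (by linarith)
  · exact Real.sin_pos_of_pos_of_lt_pi (by linarith) (by linarith)

section
variable {E : Type*} {F : Filter E} {z y : E → ℂ} {z0 y0 : ℂ}

/-- the factor is bounded on the three lines near a point -/
theorem sJ_unif (tz : Tendsto z F (𝓝 z0)) (ty : Tendsto y F (𝓝 y0)) (hz : z0 ∈ LS)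
    (hy : |y0.re| < 13 / 10 * l) :
    ∃ D : ℝ, 0 ≤ D ∧ ∀ᶠ e in F, ∀ u : ℂ, u.re ∈ K3 → ‖sJ (z e) (y e) u‖ ≤ D := by
  obtain ⟨D1, hD1, hb1⟩ := Lg_unif tz hz
  have key : ∀ r ∈ K3, ∃ ε : ℝ, 0 < ε ∧ ∀ᶠ e in F, ε ≤ Real.sin (r - (y e).re + 3 * l) := by
    intro r hr
    have h0 := K3_posJ hy hr
    refine ⟨Real.sin (r - y0.re + 3 * l) / 2, by linarith, ?_⟩
    have t : Tendsto (fun e => Real.sin (r - (y e).re + 3 * l)) F
        (𝓝 (Real.sin (r - y0.re + 3 * l))) :=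
      (Real.continuous_sin.tendsto _).comp
        ((((Complex.continuous_re.tendsto _).comp ty).const_sub _).add_const _)
    exact (t.eventually (lt_mem_nhds (a := Real.sin (r - y0.re + 3 * l) / 2) (by linarith))).mono
      fun e he => he.le
  obtain ⟨e1, p1, h1⟩ := key (3 / 5 * l) (by simp [PBX.K3])
  obtain ⟨e2, p2, h2⟩ := key (-(17 / 10 * l)) (by simp [PBX.K3])
  obtain ⟨e3, p3, h3⟩ := key (-(17 / 10 * l) + l) (by simp [PBX.K3])
  set D2 : ℝ := (1 + 1 / e1) ^ 2 + (1 + 1 / e2) ^ 2 + (1 + 1 / e3) ^ 2 with hD2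
  have hD2' : 0 ≤ D2 := by positivity
  refine ⟨D1 * D2, by positivity, ?_⟩
  filter_upwards [hb1, h1, h2, h3] with e g0 g1 g2 g3 u hu
  have q1 : 0 < (1 + 1 / e1) ^ 2 := by positivity
  have q2 : 0 < (1 + 1 / e2) ^ 2 := by positivity
  have q3 : 0 < (1 + 1 / e3) ^ 2 := by positivity
  unfold sJ
  rw [norm_mul]
  refine mul_le_mul (g0 u hu) ?_ (norm_nonneg _) hD1
  simp only [PBX.K3, Set.mem_insert_iff, Set.mem_singleton_iff] at hu
  rcases hu with hu | hu | hu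
  · exact (J_norm p1 (by rw [hu]; exact g1)).trans (by linarith)
  · exact (J_norm p2 (by rw [hu]; exact g2)).trans (by linarith)
  · exact (J_norm p3 (by rw [hu]; exact g3)).trans (by linarith)

theorem sJ_tendsto (tz : Tendsto z F (𝓝 z0)) (ty : Tendsto y F (𝓝 y0)) (hz : z0 ∈ LS)
    (hy : |y0.re| < 13 / 10 * l) {u : ℂ} (hu : u.re ∈ K3) :
    Tendsto (fun e => sJ (z e) (y e) u) F (𝓝 (sJ z0 y0 u)) := by
  unfold sJ
  refine (Lg_tendsto tz hz hu).mul (Tendsto.div ?_ ?_ ?_)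
  · exact (sin_tendsto (tendsto_const_nhds.sub ty)).mul
      (sin_tendsto ((tendsto_const_nhds.sub ty).sub_const _))
  · exact (sin_tendsto ((tendsto_const_nhds.sub ty).add_const _)).pow 2
  · refine pow_ne_zero _ (NUP1.Bd.sin_ne_zero_of_re ?_)
    have e : (u - y0 + 3 * (l : ℂ)).re = u.re - y0.re + 3 * l := by simp
    rw [e]
    exact (K3_posJ hy hu).ne'

end

/-! ### the prefactor -/

theorem Lp_ne {z y : ℂ} (hz : |z.re| < 7 / 10 * l) (hy : |y.re| < 13 / 10 * l) : Lp z y ≠ 0 := by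
  have hl := lpos
  obtain ⟨h1, h2⟩ := abs_lt.1 hz
  obtain ⟨h3, h4⟩ := abs_lt.1 hy
  have e2 : (z - y + 2 * (l : ℂ)).re = z.re - y.re + 2 * l := by simp
  have e3 : (z - y + 3 * (l : ℂ)).re = z.re - y.re + 3 * l := by simp
  unfold PB.Lp
  exact mul_ne_zero (sin_ne_08 (by rw [e2]; linarith) (by rw [e2]; linarith))
    (sin_ne_08 (by rw [e3]; linarith) (by rw [e3]; linarith))

theorem Fp_ne {w : ℂ} (h : |w.re| < 2 * l) : Fp w ≠ 0 := by
  have hl := lpos
  obtain ⟨h1, h2⟩ := abs_lt.1 h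
  have e1 : (w + 2 * (l : ℂ)).re = w.re + 2 * l := by simp
  have e2 : (w + 3 * (l : ℂ)).re = w.re + 3 * l := by simp
  have e3 : (3 * (l : ℂ) - w).re = 3 * l - w.re := by simp
  have e4 : (2 * (l : ℂ) - w).re = 2 * l - w.re := by simp
  unfold PB.Fp
  exact mul_ne_zero (mul_ne_zero (sin_ne_08 (by rw [e1]; linarith) (by rw [e1]; linarith))
    (sin_ne_08 (by rw [e2]; linarith) (by rw [e2]; linarith)))
    (mul_ne_zero (sin_ne_08 (by rw [e3]; linarith) (by rw [e3]; linarith))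
    (sin_ne_08 (by rw [e4]; linarith) (by rw [e4]; linarith)))

theorem row_re {y v : ℂ} (hy : |y.re| < 13 / 10 * l) (hv : |v.re| ≤ l / 2) :
    |(y - v).re| < 2 * l := by
  have hl := lpos
  obtain ⟨h1, h2⟩ := abs_lt.1 hy
  obtain ⟨h3, h4⟩ := abs_le.1 hv
  rw [sub_re, abs_lt]
  constructor <;> linarith

theorem leg_re {z y : ℂ} (hz : |z.re| < 7 / 10 * l) (hy : |y.re| < 13 / 10 * l) :
    |(z - y).re| < 5 * l := by
  have hl := lpos
  obtain ⟨h1, h2⟩ := abs_lt.1 hz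
  obtain ⟨h3, h4⟩ := abs_lt.1 hy
  rw [sub_re, abs_lt]
  constructor <;> linarith

theorem LS_of {z : ℂ} (hz : |z.re| < 7 / 10 * l) : z ∈ LS := by
  have hl := lpos
  obtain ⟨h1, h2⟩ := abs_lt.1 hz
  exact ⟨by linarith, by linarith⟩

section
variable {E : Type*} {F : Filter E} {z y : E → ℂ} {z0 y0 : ℂ} {x : E → Fin m → ℂ} {x0 : Fin m → ℂ}

theorem PJ_tendsto (tz : Tendsto z F (𝓝 z0)) (ty : Tendsto y F (𝓝 y0))
    (tx : ∀ i, Tendsto (fun e => x e i) F (𝓝 (x0 i))) (hz : |z0.re| < 7 / 10 * l)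
    (hy : |y0.re| < 13 / 10 * l) (hx : Rws x0) :
    Tendsto (fun e => PJ (z e) (x e) (y e)) F (𝓝 (PJ z0 x0 y0)) := by
  have hl := lpos
  have tL : Tendsto (fun e => Lp (z e) (y e)) F (𝓝 (Lp z0 y0)) := by
    unfold PB.Lp
    exact (sin_tendsto ((tz.sub ty).add_const _)).mul (sin_tendsto ((tz.sub ty).add_const _))
  have tF : ∀ j, Tendsto (fun e => Fp (y e - x e j)) F (𝓝 (Fp (y0 - x0 j))) := by
    intro j
    unfold PB.Fp
    exact ((sin_tendsto ((ty.sub (tx j)).add_const _)).mul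
      (sin_tendsto ((ty.sub (tx j)).add_const _))).mul
      ((sin_tendsto (tendsto_const_nhds.sub (ty.sub (tx j)))).mul
      (sin_tendsto (tendsto_const_nhds.sub (ty.sub (tx j)))))
  unfold PJ
  refine Tendsto.mul (tendsto_const_nhds.mul (Tendsto.div ((rh_tendsto (tz.sub ty)
    (leg_re hz hy)).pow 4) (tL.pow 2) (pow_ne_zero _ (Lp_ne hz hy))))
    (tendsto_finsetProd _ fun j _ => Tendsto.div ((rh_tendsto (ty.sub (tx j)) ?_).pow 8)
      ((tF j).pow 2) (pow_ne_zero _ (Fp_ne (row_re hy (hx j)))))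
  have := row_re hy (hx j)
  linarith

end

theorem PJ_diff {z : ℂ} {mu : Fin m → ℂ} {y : ℂ} (hz : |z.re| < 7 / 10 * l)
    (hy : |y.re| < 13 / 10 * l) (hx : Rws mu) : DifferentiableAt ℂ (PJ z mu) y := by
  have hl := lpos
  have hL := Lp_ne hz hy
  have dL : DifferentiableAt ℂ (fun y => Lp z y) y := by
    unfold PB.Lp
    fun_prop
  have dF : ∀ j, DifferentiableAt ℂ (fun y => Fp (y - mu j)) y := by
    intro j
    unfold PB.Fp
    fun_prop
  have r1 : DifferentiableAt ℂ (fun y => rh (z - y)) y :=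
    (differentiableAt_rh (by linarith [leg_re hz hy])).comp y (differentiableAt_id.const_sub _)
  have r2 : ∀ j, DifferentiableAt ℂ (fun y => rh (y - mu j)) y := fun j =>
    (differentiableAt_rh (by linarith [row_re hy (hx j)])).comp y (differentiableAt_id.sub_const _)
  unfold PJ
  refine DifferentiableAt.mul (DifferentiableAt.const_mul
    ((r1.pow 4).div (dL.pow 2) (pow_ne_zero _ hL)) _) (DifferentiableAt.fun_finsetProd fun j _ => ?_)
  exact ((r2 j).pow 8).div ((dF j).pow 2) (pow_ne_zero _ (Fp_ne (row_re hy (hx j))))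

theorem PJ_perm (z : ℂ) (x : Fin m → ℂ) (σ : Equiv.Perm (Fin m)) (y : ℂ) :
    PJ z (fun i => x (σ i)) y = PJ z x y := by
  unfold PJ
  rw [Equiv.prod_comp σ fun j => rh (y - x j) ^ 8 / Fp (y - x j) ^ 2]

theorem Fp_zero : Fp 0 = (sin (3 * l) * sin (2 * l)) ^ 2 := by
  unfold PB.Fp
  simp only [zero_add, sub_zero]
  ring

/-- the constant of the removed row -/
theorem const_J : ((9 / 4 : ℂ) * sin l ^ 2) ^ 2 * rh 0 ^ 4 = Fp 0 ^ 2 := by
  have h1 := PBS.rh3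
  have h2 := PBS.rh03
  have e : (9 / 4 : ℂ) * sin l ^ 2 = rh (3 * l) ^ 2 := by
    rw [← h1]
    ring
  rw [Fp_zero, e, ← h2]
  ring

theorem P_cons' {f : ℂ → ℂ} (x0 : ℂ) (x : Fin m → ℂ) :
    (P fun i j => f ((Fin.cons x0 x : Fin (m + 1) → ℂ) i - (Fin.cons x0 x : Fin (m + 1) → ℂ) j)) =
      (∏ j, f (x0 - x j)) * P fun i j => f (x i - x j) := by
  rw [NUP1.P_succ]
  simp only [Fin.cons_zero, Fin.cons_succ]

theorem Pf_cons {z x0 : ℂ} {x : Fin m → ℂ} (hz : |z.re| < 7 / 10 * l) (h0 : |x0.re| ≤ l / 2)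
    (hx : Rws x) :
    Pf z (Fin.cons x0 x : Fin (m + 1) → ℂ) (Fin.cons x0 x : Fin (m + 1) → ℂ) *
      PJ z (Fin.cons x0 x : Fin (m + 1) → ℂ) x0 = Pf z x x := by
  have hl := lpos
  have h0' : |x0.re| < 13 / 10 * l := by linarith
  have nL := Lp_ne hz h0'
  have nF : ∀ j, Fp (x0 - x j) ≠ 0 := fun j => Fp_ne (row_re h0' (hx j))
  have nF0 : Fp 0 ≠ 0 := Fp_ne (by simpa using by linarith)
  have nR0 : rh 0 ≠ 0 := rh0_ne
  have nRz : rh (z - x0) ≠ 0 := rh_ne_zero (leg_re hz h0')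
  have nR : ∀ j, rh (x0 - x j) ≠ 0 := fun j => rh_ne_zero (by linarith [row_re h0' (hx j)])
  have s1 : sin (l : ℂ) ≠ 0 := NUP1.Mu.sin1_ne
  have e1 : Nu z (Fin.cons x0 x : Fin (m + 1) → ℂ) =
      sin l * Lp z x0 * (∏ j, Fp (x0 - x j)) * Nu z x := by
    unfold PB.Nu
    rw [Fin.prod_univ_succ, P_cons' (f := Fp)]
    simp only [Fin.cons_zero, Fin.cons_succ]
    ring
  have e2 : D1 z (Fin.cons x0 x : Fin (m + 1) → ℂ) =
      rh (z - x0) ^ 2 * (∏ j, rh (x0 - x j)) ^ 2 * D1 z x := by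
    unfold PB.D1
    rw [Fin.prod_univ_succ, P_cons' (f := fun w => rh w ^ 2), ← Finset.prod_pow]
    simp only [Fin.cons_zero, Fin.cons_succ]
    ring
  have e3 : D2 (Fin.cons x0 x : Fin (m + 1) → ℂ) (Fin.cons x0 x : Fin (m + 1) → ℂ) =
      rh 0 ^ 2 * (∏ j, rh (x0 - x j)) ^ 4 * D2 x x := by
    rw [D2_leg, Finset.prod_pow]
    ring
  have e4 : PJ z (Fin.cons x0 x : Fin (m + 1) → ℂ) x0 =
      9 / 4 * sin l ^ 2 / rh 0 ^ 2 * (rh (z - x0) ^ 4 / Lp z x0 ^ 2) *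
        (rh 0 ^ 8 / Fp 0 ^ 2 * ((∏ j, rh (x0 - x j)) ^ 8 / (∏ j, Fp (x0 - x j)) ^ 2)) := by
    unfold PJ
    rw [Fin.prod_univ_succ]
    simp only [Fin.cons_zero, Fin.cons_succ, sub_self]
    rw [Finset.prod_div_distrib, Finset.prod_pow, Finset.prod_pow]
  have nA : ∏ j, rh (x0 - x j) ≠ 0 := Finset.prod_ne_zero_iff.2 fun j _ => nR j
  have nB : ∏ j, Fp (x0 - x j) ≠ 0 := Finset.prod_ne_zero_iff.2 fun j _ => nF j
  have hcon := const_J
  have d1 : D1 z x ≠ 0 := D1_ne (fun i j => Rws.dist hx hx i j) (Rws.narZ hx (LS_of hz))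
  have d2 : D2 x x ≠ 0 := D2_ne fun i j => Rws.dist hx hx i j
  unfold PB.Pf
  rw [e1, e2, e3, e4]
  generalize (∏ j, rh (x0 - x j)) = A at *
  generalize (∏ j, Fp (x0 - x j)) = B at *
  generalize D1 z x = B1 at *
  generalize D2 x x = B3 at *
  generalize Nu z x = C1 at *
  generalize hL : Lp z x0 = L at *
  generalize hF0 : Fp 0 = F0 at *
  generalize hRz : rh (z - x0) = Rz at *
  generalize hR0 : rh 0 = R0 at *
  generalize hs : sin (l : ℂ) = s at *
  have e5 : ((3 : ℂ) / 2) ^ (m + 1 + (m + 1) + 1) = 9 / 4 * (3 / 2) ^ (m + m + 1) := by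
    rw [show m + 1 + (m + 1) + 1 = m + m + 1 + 2 by ring, pow_add]
    norm_num
    ring
  rw [e5]
  generalize ((3 : ℂ) / 2) ^ (m + m + 1) = T
  have e6 : F0 ^ 2 = (9 / 4 : ℂ) ^ 2 * s ^ 4 * R0 ^ 4 := by
    rw [← hcon]
    ring
  field_simp
  rw [e6]
  ring

/-! ### joint continuity -/

theorem Jp_tendsto {E : Type*} {F : Filter E} [F.IsCountablyGenerated] {z y : E → ℂ}
    {x : E → Fin m → ℂ} {z0 y0 : ℂ} {x0 : Fin m → ℂ} (tz : Tendsto z F (𝓝 z0))
    (ty : Tendsto y F (𝓝 y0)) (tx : ∀ i, Tendsto (fun e => x e i) F (𝓝 (x0 i)))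
    (hx : ∀ᶠ e in F, Rws (x e)) (hx0 : Rws x0) (hz : |z0.re| < 7 / 10 * l)
    (hy : |y0.re| < 13 / 10 * l) :
    Tendsto (fun e => Jp (z e) (x e) (y e)) F (𝓝 (Jp z0 x0 y0)) := by
  have hL := LS_of hz
  unfold Jp
  refine Tendsto.mul ((Pf_tendsto tz tx tx (fun i j => Rws.dist hx0 hx0 i j)
    (fun i j => Rws.dist hx0 hx0 i j) (fun i j => Rws.dist hx0 hx0 i j) (Rws.narZ hx0 hL)
    (Rws.narZ hx0 hL)).mul (PJ_tendsto tz ty tx hz hy hx0)) (tendsto_finsetSum _ fun n _ => ?_)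
  obtain ⟨D, hD, hb⟩ := sJ_unif tz ty hL hy
  refine PBX.DZ_tendsto (R := ∑ j, |(x0 j).im| + 1) (-cn m) (-cn m) ?_ hx0 hx0
    tx tx hD ?_ (fun u hu => sJ_tendsto tz ty hL hy hu) (fun u hu => sJ_tendsto tz ty hL hy hu) n
  · filter_upwards [hx, bd_im tx] with e h1 h2
    exact ⟨h1, h1, h2, h2⟩
  · filter_upwards [hb] with e he
    exact ⟨sJ_meas _ _, sJ_meas _ _, fun u hu => ⟨he u hu, he u hu⟩⟩

theorem Jp_perm (z : ℂ) (x : Fin m → ℂ) (σ : Equiv.Perm (Fin m)) (y : ℂ) :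
    Jp z (fun i => x (σ i)) y = Jp z x y := by
  have e : ∀ n : ℕ, DZ (-cn m) (-cn m) (sJ z y) (sJ z y) (fun i => x (σ i)) (fun i => x (σ i)) n =
      DZ (-cn m) (-cn m) (sJ z y) (sJ z y) x x n := fun n =>
    DZ_perm (-cn m) (-cn m) (sJ z y) (sJ z y) x x n σ σ
  unfold Jp
  rw [Pf_perm, PJ_perm]
  simp only [e]

theorem Jm_perm (z : ℂ) (x : Fin m → ℂ) (σ : Equiv.Perm (Fin m)) (y : ℂ) :
    Jm z (fun i => x (σ i)) y = Jm z x y := Jp_perm (-z) (-x) σ (-y)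

/-! ### the sum over the states -/

theorem Jp_gen {z y : ℂ} {x : Fin m → ℂ} (hz : |z.re| < 7 / 10 * l) (hy : |y.re| < 13 / 10 * l)
    (hx : Rws x) (ix : Hgt x) :
    Jp z x y = Pf z x x * PJ z x y *
      ∑ n ∈ Finset.range (2 * m + 1), PBX.DS (-cn m) (-cn m) (sJ z y) (sJ z y) x x n := by
  have hs := sJ_SpA (LS_of hz) hy
  unfold Jp
  congr 1
  exact Finset.sum_congr rfl fun n _ => PBX.DZ_eq ix ix hx hx hs hs n

/-- one body function: the row and the removed row -/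
theorem hr_row (c z x₀ : ℂ) (x y : Fin m → ℂ) {v : ℂ} (h : sin (v - x₀) ≠ 0)
    (h2 : sin (v - x₀ - 2 * l) ≠ 0) (h3 : sin (v - x₀ + 3 * l) ≠ 0) :
    NUP1.Leg.hr c (Fin.cons x₀ x : Fin (m + 1) → ℂ) (Fin.cons x₀ y : Fin (m + 1) → ℂ) v *
      sJ z x₀ v * (1 / sin (v - x₀)) = NUP1.Leg.hr c x y v * Lg z z v := by
  unfold NUP1.Leg.hr sJ
  rw [Fin.prod_univ_succ, Fin.prod_univ_succ]
  simp only [Fin.cons_zero, Fin.cons_succ]
  have key : 1 / sin (v - x₀ - 2 * l) * sin (v - x₀ + 3 * l) ^ 2 *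
      (sin (v - x₀) * sin (v - x₀ - 2 * l) / sin (v - x₀ + 3 * l) ^ 2) * (1 / sin (v - x₀)) = 1 := by
    generalize sin (v - x₀) = a at *
    generalize sin (v - x₀ - 2 * l) = b at *
    generalize sin (v - x₀ + 3 * l) = d at *
    field_simp
  linear_combination (c * (∏ i, 1 / sin (v - x i - 2 * l)) * (∏ j, sin (v - y j + 3 * l) ^ 2) *
    Lg z z v) * key

/-- the row `x₀` carries no quantum -/
theorem sta_rowJ (c z x₀ : ℂ) {x : Fin m → ℂ} (y : Fin m → ℂ)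
    (h0 : ∀ i, sin (x i - x₀) ≠ 0 ∧ sin (x i - x₀ - 2 * l) ≠ 0 ∧ sin (x i - x₀ + 3 * l) ≠ 0)
    (h1 : ∀ i, sin (x i - l - x₀) ≠ 0 ∧ sin (x i - l - x₀ - 2 * l) ≠ 0 ∧
      sin (x i - l - x₀ + 3 * l) ≠ 0) (a₀ : SignType) (a : Fin m → SignType) :
    sta (Fin.cons x₀ x : Fin (m + 1) → ℂ)
      (fun u => NUP1.Leg.hr c (Fin.cons x₀ x : Fin (m + 1) → ℂ) (Fin.cons x₀ y : Fin (m + 1) → ℂ) u *
        sJ z x₀ u) (Fin.cons a₀ a : Fin (m + 1) → SignType) =
    if a₀ = .pos then sta x (fun u => NUP1.Leg.hr c x y u * Lg z z u) a else 0 := by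
  rw [sta_cons]
  simp only [Fin.cons_zero, Fin.cons_succ]
  rcases a₀ with _ | _ | _
  · rw [if_neg (by decide)]
    show NUP1.Leg.hr c _ _ x₀ * sJ z x₀ x₀ * _ * _ = 0
    rw [sJ_self]
    ring
  · rw [if_neg (by decide)]
    show NUP1.rho / sin l * (NUP1.Leg.hr c _ _ x₀ * sJ z x₀ x₀ * _) * _ * _ = 0
    rw [sJ_self]
    ring
  · rw [if_pos rfl]
    show 1 * _ * _ = _
    have e1 : ∏ j, pr .pos (a j) x₀ (x j) =
        ∏ i, ((qu (a i) (x i)).map fun v => 1 / sin (v - x₀)).prod :=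
      Finset.prod_congr rfl fun j _ => pr_pos _ _ _
    rw [e1, one_mul, mul_comm, ← sta_mul]
    exact sta_congr (fun i => hr_row c z x₀ x y (h0 i).1 (h0 i).2.1 (h0 i).2.2)
      (fun i => hr_row c z x₀ x y (h1 i).1 (h1 i).2.1 (h1 i).2.2) a

/-- **the removed row and the row together**, the sum over the states with `n` quanta -/
theorem DS_J (n : ℕ) (c z x₀ : ℂ) {x : Fin m → ℂ}
    (h0 : ∀ i, sin (x i - x₀) ≠ 0 ∧ sin (x i - x₀ - 2 * l) ≠ 0 ∧ sin (x i - x₀ + 3 * l) ≠ 0)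
    (h1 : ∀ i, sin (x i - l - x₀) ≠ 0 ∧ sin (x i - l - x₀ - 2 * l) ≠ 0 ∧
      sin (x i - l - x₀ + 3 * l) ≠ 0) :
    PBX.DS c c (sJ z x₀) (sJ z x₀) (Fin.cons x₀ x : Fin (m + 1) → ℂ)
      (Fin.cons x₀ x : Fin (m + 1) → ℂ) n = PBX.DS c c (Lg z z) (Lg z z) x x n := by
  unfold PBX.DS
  rw [sum_St_succ]
  · refine Finset.sum_congr rfl fun a _ => ?_
    rw [sum_St_succ]
    · refine Finset.sum_congr rfl fun b _ => ?_
      rw [sta_rowJ c z x₀ x h0 h1, sta_rowJ c z x₀ x h0 h1, if_pos rfl, if_pos rfl, crq_row]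
    · intro b₀ b hb
      rw [sta_rowJ c z x₀ x h0 h1 b₀ b, if_neg hb]
      ring
  · intro a₀ a ha
    refine Finset.sum_eq_zero fun b _ => ?_
    rw [sta_rowJ c z x₀ x h0 h1 a₀ a, if_neg ha]
    ring

theorem DSx_zero {n : ℕ} (h : 2 * m < n) (c : ℂ) (s : ℂ → ℂ) (x : Fin m → ℂ) :
    PBX.DS c c s s x x n = 0 := by
  unfold PBX.DS
  rw [St_empty h, Finset.sum_empty]

theorem sin_hgt' {a b : ℂ} (h : a.im ≠ b.im) :
    (sin (a - b) ≠ 0 ∧ sin (a - b - 2 * l) ≠ 0 ∧ sin (a - b + 3 * l) ≠ 0) ∧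
    (sin (a - l - b) ≠ 0 ∧ sin (a - l - b - 2 * l) ≠ 0 ∧ sin (a - l - b + 3 * l) ≠ 0) := by
  have h' : a.im - b.im ≠ 0 := sub_ne_zero.2 h
  refine ⟨⟨?_, ?_, ?_⟩, ?_, ?_, ?_⟩ <;> refine NUP1.sin_ne_im ?_ <;> simpa using h'

/-- the removed row is a row of the content, pairwise different heights -/
theorem Jp_self_gen {z x0 : ℂ} {x : Fin m → ℂ} (hz : |z.re| < 7 / 10 * l) (h0 : |x0.re| ≤ l / 2)
    (hx : Rws x) (ix : Hgt (Fin.cons x0 x : Fin (m + 1) → ℂ)) :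
    Jp z (Fin.cons x0 x : Fin (m + 1) → ℂ) x0 = nz z x x := by
  have hl := lpos
  have ix' : Hgt x := fun i j hij => by
    simpa using ix i.succ j.succ fun h => hij (Fin.succ_injective _ h)
  have kx : ∀ i, (x i).im ≠ x0.im := fun i => by simpa using ix i.succ 0 (Fin.succ_ne_zero i)
  have hL := Lg_SpA (q := z) (LS_of hz).1 (LS_of hz).2
  rw [Jp_gen hz (by linarith) (Rws.cons h0 hx) ix, Pf_cons hz h0 hx, cn_succ, neg_neg]
  unfold nz
  congr 1
  rw [Finset.sum_congr rfl fun n _ => PBX.DZ_eq ix' ix' hx hx hL hL n]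
  rw [Finset.sum_congr rfl fun n _ => DS_J n (cn m) z x0 (fun i => (sin_hgt' (kx i)).1)
    fun i => (sin_hgt' (kx i)).2]
  symm
  refine Finset.sum_subset (Finset.range_mono (by omega)) fun n _ hn => ?_
  refine DSx_zero ?_ _ _ _
  rw [Finset.mem_range] at hn
  omega

/-- **The removed row is a row of the content, all rows.** -/
theorem Jp_self {z x0 : ℂ} {x : Fin m → ℂ} (hz : |z.re| < 7 / 10 * l) (h0 : |x0.re| ≤ l / 2)
    (hx : Rws x) : Jp z (Fin.cons x0 x : Fin (m + 1) → ℂ) x0 = nz z x x := by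
  have hl := lpos
  have rx := Rws.cons h0 hx
  set px : ℝ → Fin m → ℂ := fun e i => pull (Fin.cons x0 x : Fin (m + 1) → ℂ) e i.succ with hpx
  have rpx : ∀ e, Rws (px e) := fun e i => pull_Rws rx e i.succ
  have t1 : Tendsto (fun e => Jp z (pull (Fin.cons x0 x : Fin (m + 1) → ℂ) e) x0) (𝓝[>] (0 : ℝ))
      (𝓝 (Jp z (Fin.cons x0 x : Fin (m + 1) → ℂ) x0)) :=
    Jp_tendsto tendsto_const_nhds tendsto_const_nhds (pull_tendsto _)
      (Eventually.of_forall fun e => pull_Rws rx e) rx hz (by linarith)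
  have t2 : Tendsto (fun e => nz z (px e) (px e)) (𝓝[>] (0 : ℝ)) (𝓝 (nz z x x)) := by
    have t : ∀ i, Tendsto (fun e => px e i) (𝓝[>] (0 : ℝ)) (𝓝 (x i)) := fun i => by
      simpa using pull_tendsto (Fin.cons x0 x : Fin (m + 1) → ℂ) i.succ
    exact nz_tendsto tendsto_const_nhds t t (Eventually.of_forall rpx) (Eventually.of_forall rpx)
      hx hx (LS_of hz)
  refine tendsto_nhds_unique (t1.congr' ?_) t2
  filter_upwards [pull_Hgt (Fin.cons x0 x : Fin (m + 1) → ℂ)] with e h1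
  rw [pull_cons x0 x e] at h1 ⊢
  exact Jp_self_gen hz h0 (rpx e) h1

theorem Jm_self {z x0 : ℂ} {x : Fin m → ℂ} (hz : |z.re| < 7 / 10 * l) (h0 : |x0.re| ≤ l / 2)
    (hx : Rws x) : Jm z (Fin.cons x0 x : Fin (m + 1) → ℂ) x0 = nz z x x := by
  have hl := lpos
  unfold Jm
  rw [neg_cons, Jp_self (by rwa [neg_re, abs_neg]) (by rwa [neg_re, abs_neg]) (Rws.neg hx)]
  exact nz_neg (by linarith) hx hx

/-- the difference vanishes at the rows -/
theorem J_node {z : ℂ} {x : Fin m → ℂ} (hz : |z.re| < 7 / 10 * l) (hx : Rws x) (j : Fin m) :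
    Jp z x (x j) - Jm z x (x j) = 0 := by
  rcases m with _ | m
  · exact j.elim0
  have hx' : Rws fun i : Fin m => x (Equiv.swap 0 j i.succ) := fun i => hx _
  rw [← Jp_perm z x (Equiv.swap 0 j) (x j), ← Jm_perm z x (Equiv.swap 0 j) (x j), cons_swap,
    Jp_self hz (hx j) hx', Jm_self hz (hx j) hx', sub_self]

/-- the value at the rows: the content without this row -/
theorem Jp_row {z : ℂ} {x : Fin (m + 1) → ℂ} (hz : |z.re| < 7 / 10 * l) (hx : Rws x)
    (j : Fin (m + 1)) : Jp z x (x j) = nz z (fun i : Fin m => x (Equiv.swap 0 j i.succ))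
      (fun i : Fin m => x (Equiv.swap 0 j i.succ)) := by
  have hx' : Rws fun i : Fin m => x (Equiv.swap 0 j i.succ) := fun i => hx _
  rw [← Jp_perm z x (Equiv.swap 0 j) (x j), cons_swap, Jp_self hz (hx j) hx']

/-! ### analyticity -/

theorem sJ_diff {z y u : ℂ} (hy : |y.re| < 13 / 10 * l) (h1 : -(17 / 10 * l) ≤ u.re)
    (h2 : u.re ≤ 3 / 5 * l) : DifferentiableAt ℂ (fun y => sJ z y u) y := by
  have hl := lpos
  obtain ⟨h3, h4⟩ := abs_lt.1 hy
  have e : (u - y + 3 * (l : ℂ)).re = u.re - y.re + 3 * l := by simp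
  have hs : sin (u - y + 3 * l) ^ 2 ≠ 0 :=
    pow_ne_zero _ (sin_ne_08 (by rw [e]; linarith) (by rw [e]; linarith))
  unfold sJ
  fun_prop (disch := exact hs)

theorem sta_diffJ (c z : ℂ) {x : Fin m → ℂ} (x' : Fin m → ℂ) (a : Fin m → SignType) {y : ℂ}
    (hy : |y.re| < 13 / 10 * l) (hx : Rws x) :
    DifferentiableAt ℂ (fun y => sta x (fun u => NUP1.Leg.hr c x x' u * sJ z y u) a) y := by
  have hl := lpos
  unfold NUP1.sta
  refine DifferentiableAt.mul_const (DifferentiableAt.fun_finsetProd fun i _ => ?_) _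
  obtain ⟨h1, h2⟩ := abs_le.1 (hx i)
  have e : (x i - (l : ℂ)).re = (x i).re - l := by simp
  have d1 : DifferentiableAt ℂ (fun y => NUP1.Leg.hr c x x' (x i) * sJ z y (x i)) y :=
    (sJ_diff hy (by linarith) (by linarith)).const_mul _
  have d2 : DifferentiableAt ℂ (fun y => NUP1.Leg.hr c x x' (x i - l) * sJ z y (x i - l)) y :=
    (sJ_diff hy (by rw [e]; linarith) (by rw [e]; linarith)).const_mul _
  rcases a i with _ | _ | _
  · exact d1
  · exact (d1.mul d2).const_mul _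
  · exact differentiableAt_const _

/-- the strip of the removed row -/
def YS : Set ℂ := {y | |y.re| < 13 / 10 * l}

theorem YS_open : IsOpen YS :=
  isOpen_lt (continuous_abs.comp Complex.continuous_re) continuous_const

theorem Jp_diff_gen {z : ℂ} {x : Fin m → ℂ} (hz : |z.re| < 7 / 10 * l) (hx : Rws x) (ix : Hgt x) :
    DifferentiableOn ℂ (Jp z x) YS := by
  have h : DifferentiableOn ℂ (fun y => Pf z x x * PJ z x y * ∑ n ∈ Finset.range (2 * m + 1),
      PBX.DS (-cn m) (-cn m) (sJ z y) (sJ z y) x x n) YS := by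
    intro y hy
    refine DifferentiableAt.differentiableWithinAt (((PJ_diff hz hy hx).const_mul _).mul ?_)
    unfold PBX.DS
    refine DifferentiableAt.fun_sum fun n _ => DifferentiableAt.fun_sum fun a _ =>
      DifferentiableAt.fun_sum fun b _ => ?_
    exact ((sta_diffJ (-cn m) z x a hy hx).mul (sta_diffJ (-cn m) z x b hy hx)).mul_const _
  exact h.congr fun y hy => Jp_gen hz hy hx ix

/-- **analyticity in the removed row** -/
theorem Jp_diff {z : ℂ} {x : Fin m → ℂ} (hz : |z.re| < 7 / 10 * l) (hx : Rws x) :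
    DifferentiableOn ℂ (Jp z x) YS := by
  refine diff_of_joint (F := 𝓝[>] (0 : ℝ)) (D := fun y e => Jp z (pull x e) y)
    (fun y hy => ?_) YS_open ?_
  · have t2 : ∀ (i : Fin m), Tendsto (fun p : ℂ × ℝ => pull x p.2 i)
        (𝓝 y ×ˢ 𝓝[>] 0) (𝓝 (x i)) := fun i => (pull_tendsto x i).comp tendsto_snd
    exact Jp_tendsto (F := 𝓝 y ×ˢ 𝓝[>] (0 : ℝ)) (z := fun _ => z) (y := fun p => p.1)
      (x := fun p => pull x p.2) tendsto_const_nhds tendsto_fst t2
      (Eventually.of_forall fun p => pull_Rws hx p.2) hx hz hy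
  · filter_upwards [pull_Hgt x] with e h1
    exact Jp_diff_gen hz (pull_Rws hx e) h1

theorem YS_neg {y : ℂ} (hy : y ∈ YS) : -y ∈ YS := by
  show |(-y).re| < 13 / 10 * l
  rw [neg_re, abs_neg]
  exact hy

theorem Jm_diff {z : ℂ} {x : Fin m → ℂ} (hz : |z.re| < 7 / 10 * l) (hx : Rws x) :
    DifferentiableOn ℂ (Jm z x) YS := by
  have h := Jp_diff (z := -z) (by rwa [neg_re, abs_neg]) (Rws.neg hx)
  exact h.comp (differentiable_neg.differentiableOn) fun y hy => YS_neg hy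

theorem Jm_tendsto {E : Type*} {F : Filter E} [F.IsCountablyGenerated] {z y : E → ℂ}
    {x : E → Fin m → ℂ} {z0 y0 : ℂ} {x0 : Fin m → ℂ} (tz : Tendsto z F (𝓝 z0))
    (ty : Tendsto y F (𝓝 y0)) (tx : ∀ i, Tendsto (fun e => x e i) F (𝓝 (x0 i)))
    (hx : ∀ᶠ e in F, Rws (x e)) (hx0 : Rws x0) (hz : |z0.re| < 7 / 10 * l)
    (hy : |y0.re| < 13 / 10 * l) :
    Tendsto (fun e => Jm (z e) (x e) (y e)) F (𝓝 (Jm z0 x0 y0)) :=
  Jp_tendsto (z := fun e => -z e) (y := fun e => -y e) (x := fun e => -x e) tz.neg ty.neg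
    (fun i => (tx i).neg) (hx.mono fun e he => Rws.neg he) (Rws.neg hx0)
    (by rwa [neg_re, abs_neg]) (by rwa [neg_re, abs_neg])

/-- **The zeros of the difference**, all rows. -/
theorem J_zeros {z : ℂ} {mu : Fin m → ℂ} (hz : |z.re| < 7 / 10 * l) (hmu : Rws mu) :
    ∃ Q : ℂ → ℂ, DifferentiableOn ℂ Q {y | |y.re| < 13 / 10 * l} ∧
      ∀ y, Jp z mu y - Jm z mu y = (∏ j, (y - mu j)) * Q y := by
  have hl := lpos
  set R : ℝ := ∑ j, |(mu j).im| + 1 with hR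
  set U : Set ℂ := {y | |y.re| < l ∧ |y.im| < R} with hU
  have hUo : IsOpen U := (isOpen_lt (continuous_abs.comp Complex.continuous_re)
    continuous_const).inter (isOpen_lt (continuous_abs.comp Complex.continuous_im) continuous_const)
  have hUb : Bornology.IsBounded U := by
    refine (Metric.isBounded_iff_subset_closedBall (0 : ℂ)).2 ⟨l + R, fun z hz => ?_⟩
    rw [Metric.mem_closedBall, dist_zero_right]
    have := Complex.norm_le_abs_re_add_abs_im z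
    linarith [hz.1, hz.2]
  have hUc : closure U ⊆ YS := by
    have h1 : closure U ⊆ {z : ℂ | |z.re| ≤ l} := by
      refine closure_minimal (fun z hz => hz.1.le) ?_
      exact isClosed_le (continuous_abs.comp Complex.continuous_re) continuous_const
    intro z hz
    have h2 : |z.re| ≤ l := h1 hz
    show |z.re| < 13 / 10 * l
    linarith
  obtain ⟨-, Q, hQ, hfQ⟩ := zero_rowsW (ι := Fin m) YS_open hUo hUb hUc (c := mu) (S := GS m)
    (D := fun y x => Jp z x y - Jm z x y)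
    (fun j => by
      have h1 := hmu j
      have h2 := PBX.im_le mu j
      exact ⟨by linarith, by linarith⟩)
    (mem_closure_GS hmu)
    (fun y hy i j hij => by
      by_contra hne
      exact hy.2 i j hne (by rw [hij]))
    (fun x hx => (Jp_diff hz hx.1).sub (Jm_diff hz hx.1))
    (fun y hy => by
      have tr : ∀ i, Tendsto (fun p : ℂ × (Fin m → ℂ) => p.2 i) (𝓝 y ×ˢ 𝓝[GS m] mu)
          (𝓝 (mu i)) := fun i =>
        (((continuous_apply i).tendsto mu).mono_left nhdsWithin_le_nhds).comp tendsto_snd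
      have hrw : ∀ᶠ p : ℂ × (Fin m → ℂ) in 𝓝 y ×ˢ 𝓝[GS m] mu, Rws p.2 := by
        have h1 : ∀ᶠ y in 𝓝[GS m] mu, Rws y := by
          filter_upwards [self_mem_nhdsWithin] with y hy
          exact hy.1
        exact tendsto_snd.eventually h1
      exact (Jp_tendsto (F := 𝓝 y ×ˢ 𝓝[GS m] mu) (z := fun _ => z) (y := fun p => p.1)
        (x := fun p => p.2) tendsto_const_nhds tendsto_fst tr hrw hmu hz hy).sub
        (Jm_tendsto (F := 𝓝 y ×ˢ 𝓝[GS m] mu) (z := fun _ => z) (y := fun p => p.1)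
        (x := fun p => p.2) tendsto_const_nhds tendsto_fst tr hrw hmu hz hy))
    (by
      filter_upwards [self_mem_nhdsWithin] with x hx j
      exact J_node hz hx.1 j)
  exact ⟨Q, hQ, hfQ⟩

end Pool.Agent.RX

end
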