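import Pool.Agent.RX.FarG

/-!
# PLAX: groups of different sizes `(m, M)`, one far row in ONE group

* `SG_consX`, `SG_consY`: one row more in one group (three terms);
* `tg_eqU`, **`SG_qnU`**: a charged state sum of sizes `(m, M)` in terms of quanta, `n' = n + Q + (M - m)`,
  body functions `hr (cn m) x y * s`, `hr (cn M) y x * t`;
* `PN_consX`; **`nh_eqU`** (no far row); **`nh_far1`** (one far row in the first group: three states),
  `nh_far1Y` (in the second group).
-/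

set_option autoImplicit false
set_option linter.unusedSectionVars false
set_option linter.unusedSimpArgs false

noncomputable section

open Complex

namespace RX

open NUP1 (l q rho St sta crq)
open NUP1.Bd (qg)
open NUP1.Grand (P)
open NUP1.Mu (v1 v2 cr QQ QG pr Gn Gc nq qn sw hrow prod_ne v2_self v2_self_ne sin1_ne sin2_ne
  sin3_ne P_mul P_both P_congr P_cons sin_eight)
open NUP1.Leg (hr)
open PBS (SS tm fw gw Lw ww sum_cons P_perm fw_neg gw_neg fw_eq gw_eq row_eq P_eq_sq Th Lw_eq PN nh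
  SS_swap nh_swap)
open PBR (rh rh_neg)
open Pool.Agent.PB (cn Pf Nu D1 D2 Lp Fp)

/-! ## one row more in one group -/

/-- the spectator of the own group after the row `x0` in the state `e` -/
def so (L : SignType → ℂ → ℂ) (e : SignType) (x0 : ℂ) (a : SignType) (u : ℂ) : ℂ :=
  L a u * fw e a (x0 - u)

/-- the spectator of the other group after the row `x0` in the state `e` -/
def sc (L : SignType → ℂ → ℂ) (e : SignType) (x0 : ℂ) (b : SignType) (v : ℂ) : ℂ :=
  L b v * gw e b (x0 - v)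

theorem tg_consX (LX LY : SignType → ℂ → ℂ) {m M : ℕ} (x0 : ℂ) (x : Fin m → ℂ) (y : Fin M → ℂ)
    (e : SignType) (a : Fin m → SignType) (b : Fin M → SignType) :
    tg LX LY (Fin.cons x0 x : Fin (m + 1) → ℂ) y (Fin.cons e a : Fin (m + 1) → SignType) b =
      LX e x0 * tg (so LX e x0) (sc LY e x0) x y a b := by
  unfold tg so sc
  rw [Fin.prod_univ_succ (n := m), P_cons (n := m), Fin.prod_univ_succ (n := m)]
  simp only [Fin.cons_zero, Fin.cons_succ, Finset.prod_mul_distrib]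
  ring

/-- **one row more in the first group** -/
theorem SG_consX (LX LY : SignType → ℂ → ℂ) (Q : ℤ) {m M : ℕ} (x0 : ℂ) (x : Fin m → ℂ)
    (y : Fin M → ℂ) :
    SG LX LY Q (Fin.cons x0 x : Fin (m + 1) → ℂ) y =
      ∑ e : SignType, LX e x0 * SG (so LX e x0) (sc LY e x0) (Q - (e : ℤ)) x y := by
  unfold SG
  rw [sum_cons]
  refine Finset.sum_congr rfl fun e _ => ?_
  rw [Finset.mul_sum]
  refine Finset.sum_congr rfl fun a _ => ?_
  rw [Finset.mul_sum]
  refine Finset.sum_congr rfl fun b _ => ?_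
  rw [tg_consX, mul_ite, mul_zero]
  refine if_congr ?_ rfl rfl
  rw [Fin.sum_univ_succ]
  simp only [Fin.cons_zero, Fin.cons_succ]
  constructor <;> intro h <;> linarith

/-- **one row more in the second group** -/
theorem SG_consY (LX LY : SignType → ℂ → ℂ) (Q : ℤ) {m M : ℕ} (y0 : ℂ) (x : Fin m → ℂ)
    (y : Fin M → ℂ) :
    SG LX LY Q x (Fin.cons y0 y : Fin (M + 1) → ℂ) =
      ∑ f : SignType, LY f y0 * SG (sc LX f y0) (so LY f y0) (Q + (f : ℤ)) x y := by
  rw [SG_swap, SG_consX]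
  refine Finset.sum_congr rfl fun f _ => ?_
  rw [SG_swap]
  congr 2
  ring

/-! ## quanta -/

theorem tg_eqU {m M : ℕ} {x : Fin m → ℂ} {y : Fin M → ℂ} (hx : ∀ i j, i ≠ j → Gn (x i - x j))
    (hy : ∀ i j, i ≠ j → Gn (y i - y j)) (hxy : ∀ i j, Gc (x i - y j)) (R T s t : ℂ → ℂ)
    (a : Fin m → SignType) (b : Fin M → SignType) :
    tg (fun a u => ww a * (R u * ((qn a u).map s).prod)) (fun b v => ww b * (T v * ((qn b v).map t).prod))
      x y a b = preG R x * preG T y *
      ((((-1) ^ (∑ i, NUP1.nq (a i))) ^ (m + 1) * ((-1) ^ (∑ i, NUP1.nq (b i))) ^ (M + 1)) *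
      (sta x (fun u => hrow (2 * sin l) x y u * s u) a *
        sta y (fun u => hrow (2 * sin l) y x u * t u) b * crq x y a b)) := by
  have hG : ∏ i, ∏ j, gw (a i) (b j) (x i - y j) =
      (∏ i, ∏ j, QG (a i) (b j) (x i) (y j)) *
      ((∏ i, ∏ j, cr (a i) (x i) (y j)) * (∏ j, ∏ i, cr (b j) (y j) (x i))) := by
    rw [Finset.prod_comm (f := fun j i => cr (b j) (y j) (x i)), ← Finset.prod_mul_distrib,
      ← Finset.prod_mul_distrib]
    refine Finset.prod_congr rfl fun i _ => ?_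
    rw [← Finset.prod_mul_distrib, ← Finset.prod_mul_distrib]
    exact Finset.prod_congr rfl fun j _ => gw_eq (a i) (b j) (hxy i j)
  have hX : (∏ i, ww (a i)) * ((∏ i, ∏ j, if i = j then 1 else
        v2 (a i) (x i) (x j) * (-1) ^ nq (a i)) * ∏ i, ∏ j, cr (a i) (x i) (y j)) =
      (∏ i : Fin m, sin (l : ℂ)) * (∏ i, sw (a i) (hrow (2 * sin l) x y) (x i)) *
        ∏ i, ((-1) ^ nq (a i)) ^ (m + 1) := by
    rw [← Finset.prod_mul_distrib, ← Finset.prod_mul_distrib, ← Finset.prod_mul_distrib,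
      ← Finset.prod_mul_distrib]
    exact Finset.prod_congr rfl fun i _ => row_eq x y a i
  have hY : (∏ i, ww (b i)) * ((∏ i, ∏ j, if i = j then 1 else
        v2 (b i) (y i) (y j) * (-1) ^ nq (b i)) * ∏ i, ∏ j, cr (b i) (y i) (x j)) =
      (∏ i : Fin M, sin (l : ℂ)) * (∏ i, sw (b i) (hrow (2 * sin l) y x) (y i)) *
        ∏ i, ((-1) ^ nq (b i)) ^ (M + 1) := by
    rw [← Finset.prod_mul_distrib, ← Finset.prod_mul_distrib, ← Finset.prod_mul_distrib,
      ← Finset.prod_mul_distrib]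
    exact Finset.prod_congr rfl fun i _ => row_eq y x b i
  have hs : ∀ {k : ℕ} (c : Fin k → SignType), ∏ i, ((-1 : ℂ) ^ nq (c i)) ^ (k + 1) =
      ((-1) ^ (∑ i, NUP1.nq (c i))) ^ (k + 1) := by
    intro k c
    rw [Finset.prod_pow, Finset.prod_pow_eq_pow_sum]
    simp only [NUP1.Mu.nq_eq]
  rw [hs] at hX hY
  have hsta : ∀ {k k' : ℕ} (u : Fin k → ℂ) (v : Fin k' → ℂ) (c : Fin k → SignType) (s : ℂ → ℂ),
      NUP1.sta u (fun w => hrow (2 * sin l) u v w * s w) c =
        (∏ i, sw (c i) (hrow (2 * sin l) u v) (u i)) * (∏ i, ((qn (c i) (u i)).map s).prod) *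
          P (fun i j => pr (c i) (c j) (u i) (u j)) := by
    intro k k' u v c s
    unfold NUP1.sta
    rw [← Finset.prod_mul_distrib]
    congr 1
    · refine Finset.prod_congr rfl fun i _ => ?_
      rw [NUP1.sw_mul, NUP1.Mu.qn_eq, NUP1.Mu.sw_eq]
    · congr 1
      funext i j
      rw [NUP1.Mu.pr_eq]
  have hcrq : NUP1.crq x y a b = ∏ i, ∏ j, QG (a i) (b j) (x i) (y j) := by
    unfold NUP1.crq QG
    simp only [NUP1.Mu.qn_eq]
  unfold tg
  rw [P_eq_sq _ x a hx rfl, P_eq_sq _ y b hy rfl, hG, hsta, hsta, hcrq]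
  unfold preG
  simp only [Finset.prod_mul_distrib]
  set A1 := ∏ i, ww (a i)
  set A2 := ∏ i, ww (b i)
  set FX := P fun i j => fw SignType.pos SignType.pos (x i - x j)
  set FY := P fun i j => fw SignType.pos SignType.pos (y i - y j)
  set PX := P fun i j => pr (a i) (a j) (x i) (x j)
  set PY := P fun i j => pr (b i) (b j) (y i) (y j)
  set GX := ∏ i, ∏ j, if i = j then 1 else v2 (a i) (x i) (x j) * (-1) ^ nq (a i)
  set GY := ∏ i, ∏ j, if i = j then 1 else v2 (b i) (y i) (y j) * (-1) ^ nq (b i)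
  set CX := ∏ i, ∏ j, cr (a i) (x i) (y j)
  set CY := ∏ i, ∏ j, cr (b i) (y i) (x j)
  set QP := ∏ i, ∏ j, QG (a i) (b j) (x i) (y j)
  set S0 := ∏ i : Fin m, sin (l : ℂ)
  set TX := ∏ i, sw (a i) (hrow (2 * sin l) x y) (x i)
  set TY := ∏ i, sw (b i) (hrow (2 * sin l) y x) (y i)
  set σX := ((-1 : ℂ) ^ (∑ i, NUP1.nq (a i))) ^ (m + 1)
  set σY := ((-1 : ℂ) ^ (∑ i, NUP1.nq (b i))) ^ (M + 1)
  set LX := ∏ i, R (x i)
  set LY := ∏ i, T (y i)
  set QX := ∏ i, ((qn (a i) (x i)).map s).prod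
  set QY := ∏ i, ((qn (b i) (y i)).map t).prod
  linear_combination FX * PX * FY * PY * QP * LX * LY * QX * QY * (A2 * (GY * CY)) * hX +
    FX * PX * FY * PY * QP * LX * LY * QX * QY * (S0 * TX * σX) * hY

/-- the sum over the numbers of quanta of groups of sizes `m`, `M` with the charge `Q` -/
def sumU (m M : ℕ) (Q : ℤ) (F : ℕ → ℕ → ℂ) : ℂ :=
  ∑ n ∈ Finset.range (2 * m + 1), ∑ n' ∈ Finset.range (2 * M + 1),
    if (n' : ℤ) + m = n + M + Q then F n n' else 0

theorem nq_le {m : ℕ} (a : Fin m → SignType) : ∑ i, NUP1.nq (a i) ∈ Finset.range (2 * m + 1) := by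
  have h2 : ∀ s : SignType, NUP1.nq s ≤ 2 := by decide
  have h3 := Finset.sum_le_card_nsmul Finset.univ (fun i => NUP1.nq (a i)) 2 (fun i _ => h2 _)
  have h4 : ∑ i, NUP1.nq (a i) ≤ 2 * m := by simpa [mul_comm] using h3
  exact Finset.mem_range.2 (by omega)

/-- **a charged state sum of sizes `(m, M)` in terms of quanta** -/
theorem SG_qnU {m M : ℕ} {x : Fin m → ℂ} {y : Fin M → ℂ} (hx : ∀ i j, i ≠ j → Gn (x i - x j))
    (hy : ∀ i j, i ≠ j → Gn (y i - y j)) (hxy : ∀ i j, Gc (x i - y j)) (R T s t : ℂ → ℂ) (Q : ℤ) :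
    SG (fun a u => ww a * (R u * ((qn a u).map s).prod)) (fun b v => ww b * (T v * ((qn b v).map t).prod))
      Q x y = preG R x * preG T y *
      sumU m M Q fun n n' => ∑ a ∈ St m n, ∑ b ∈ St M n',
          sta x (fun u => hr (cn m) x y u * s u) a * sta y (fun u => hr (cn M) y x u * t u) b *
            crq x y a b := by
  have key : ∀ n n' : ℕ, preG R x * preG T y * (if (n' : ℤ) + m = n + M + Q then
        ∑ a ∈ St m n, ∑ b ∈ St M n',
          sta x (fun u => hr (cn m) x y u * s u) a * sta y (fun u => hr (cn M) y x u * t u) b *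
            crq x y a b else 0) =
      ∑ a : Fin m → SignType, ∑ b : Fin M → SignType,
        if (∑ i, NUP1.nq (a i) = n ∧ ∑ i, NUP1.nq (b i) = n') ∧ (n' : ℤ) + m = n + M + Q then
          tg (fun a u => ww a * (R u * ((qn a u).map s).prod))
            (fun b v => ww b * (T v * ((qn b v).map t).prod)) x y a b else 0 := by
    intro n n'
    by_cases hQ : (n' : ℤ) + m = n + M + Q
    · rw [if_pos hQ]
      unfold NUP1.St
      rw [Finset.sum_filter, Finset.mul_sum]
      refine Finset.sum_congr rfl fun a _ => ?_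
      split_ifs with ha
      · rw [Finset.sum_filter, Finset.mul_sum]
        refine Finset.sum_congr rfl fun b _ => ?_
        split_ifs with hb h h
        · rw [tg_eqU hx hy hxy, ← hrow_hr m x y s, ← hrow_hr M y x t, sta_scale, sta_scale, ha, hb]
          have e1 : ((-1 : ℂ) ^ (m + 1)) ^ n = ((-1) ^ n) ^ (m + 1) := by
            rw [← pow_mul, ← pow_mul, mul_comm]
          have e2 : ((-1 : ℂ) ^ (M + 1)) ^ n' = ((-1) ^ n') ^ (M + 1) := by
            rw [← pow_mul, ← pow_mul, mul_comm]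
          rw [e1, e2]
          ring
        · exact absurd ⟨⟨ha, hb⟩, hQ⟩ h
        · exact absurd h.1.2 hb
        · ring
      · rw [mul_zero]
        symm
        refine Finset.sum_eq_zero fun b _ => ?_
        rw [if_neg fun h => ha h.1.1]
    · rw [if_neg hQ, mul_zero]
      symm
      refine Finset.sum_eq_zero fun a _ => Finset.sum_eq_zero fun b _ => ?_
      rw [if_neg fun h => hQ h.2]
  unfold sumU
  rw [Finset.mul_sum]
  simp only [Finset.mul_sum _ _ (preG R x * preG T y), key]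
  unfold SG
  rw [sum4]
  refine Finset.sum_congr rfl fun a _ => Finset.sum_congr rfl fun b _ => ?_
  rw [Finset.sum_eq_single_of_mem _ (nq_le a), Finset.sum_eq_single_of_mem _ (nq_le b)]
  · refine if_congr ?_ rfl rfl
    have h1 := NUP1.Mu.sum_nq a
    have h2 := NUP1.Mu.sum_nq b
    simp only [NUP1.Mu.nq_eq] at h1 h2
    constructor
    · intro h
      refine ⟨⟨rfl, rfl⟩, ?_⟩
      rw [h1, h2]
      linarith
    · rintro ⟨-, h⟩
      rw [h1, h2] at h
      linarith
  · intro n' _ hn'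
    rw [if_neg fun h => hn' h.1.2.symm]
  · intro n _ hn
    refine Finset.sum_eq_zero fun n' _ => ?_
    rw [if_neg fun h => hn h.1.1.symm]

theorem sumU_self (m : ℕ) (Q : ℤ) (F : ℕ → ℕ → ℂ) : sumU m m Q F = sumQ m Q F := by
  unfold sumU sumQ
  refine Finset.sum_congr rfl fun n _ => Finset.sum_congr rfl fun n' _ => ?_
  refine if_congr ?_ rfl rfl
  constructor <;> intro h <;> linarith

/-! ## the normaliser -/

/-- the normaliser of one row `x` more in the first group -/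
def N1 (z x : ℂ) {m M : ℕ} (mu : Fin m → ℂ) (nu : Fin M → ℂ) : ℂ :=
  2 / 3 * rh (z - x) ^ 2 * ((∏ i, rh (x - mu i) ^ 2) * ∏ j, rh (x - nu j) ^ 2)

theorem PN_consX (z x : ℂ) {m M : ℕ} (mu : Fin m → ℂ) (nu : Fin M → ℂ) :
    PN z (Fin.cons x mu : Fin (m + 1) → ℂ) nu = N1 z x mu nu * PN z mu nu := by
  unfold PBS.PN N1
  rw [Fin.prod_univ_succ (n := m), P_cons (n := m), Fin.prod_univ_succ (n := m)]
  simp only [Fin.cons_zero, Fin.cons_succ]
  rw [show m + 1 + M + 1 = (m + M + 1) + 1 by ring, pow_succ (2 / 3 : ℂ) (m + M + 1)]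
  ring

/-! ## the class formulas -/

/-- the spectator of the rows in terms of quanta, own group -/
theorem so_qn (e : SignType) {z x0 u : ℂ} (a : SignType) (hx : Fr (x0 - u))
    (h2 : sin (z - u + 2 * l) ≠ 0) (h3 : sin (z - u + 3 * l) ≠ 0) :
    so (LL z) e x0 a u = ww a * ((Lw .pos (z - u) * fw e .pos (x0 - u)) *
      ((qn a u).map fun w => Th z w * Wo e (w - x0)).prod) := by
  unfold so LL
  rw [Lw_eq a h2 h3, fw_qn e a hx, List.prod_map_mul]
  ring

/-- the spectator of the rows in terms of quanta, other group -/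
theorem sc_qn (e : SignType) {z x0 u : ℂ} (b : SignType) (hx : Fr (x0 - u))
    (h2 : sin (z - u + 2 * l) ≠ 0) (h3 : sin (z - u + 3 * l) ≠ 0) :
    sc (LL z) e x0 b u = ww b * ((Lw .pos (z - u) * gw .pos e (u - x0)) *
      ((qn b u).map fun w => Th z w * Vo e (w - x0)).prod) := by
  unfold sc LL
  rw [Lw_eq b h2 h3, show x0 - u = -(u - x0) by ring, gw_neg, gw_qn b e hx, List.prod_map_mul]
  ring

/-- the factor of a row of the own group, `w = x0 - mu i` -/
def kO (e : SignType) (w : ℂ) : ℂ := fw e .pos w / rh w ^ 2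

/-- the factor of a row of the other group -/
def kX (e : SignType) (w : ℂ) : ℂ := gw .pos e (-w) / rh w ^ 2

/-- the factor of the legs and of the row itself -/
def k1 (z : ℂ) (e : SignType) (x0 : ℂ) : ℂ := LL z e x0 / (2 / 3 * rh (z - x0) ^ 2)

theorem pre_prod (z : ℂ) (g : ℂ → ℂ) {m : ℕ} (x : Fin m → ℂ) :
    preG (fun u => Lw .pos (z - u) * g u) x = Nu z x * ∏ i, g (x i) := by
  rw [← Pool.Agent.PB.pre_Nu]
  unfold preG PBS.pre
  simp only [Finset.prod_mul_distrib]
  ring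

/-- **no far row**: the normalised function of the sizes `(m, M)` in terms of quanta -/
theorem nh_eqU {z : ℂ} {m M : ℕ} {mu : Fin m → ℂ} {nu : Fin M → ℂ}
    (hmu : ∀ i j, i ≠ j → Gn (mu i - mu j)) (hnu : ∀ i j, i ≠ j → Gn (nu i - nu j))
    (hc : ∀ i j, Gc (mu i - nu j))
    (hz : ∀ i, sin (z - mu i + 2 * l) ≠ 0 ∧ sin (z - mu i + 3 * l) ≠ 0)
    (hz' : ∀ i, sin (z - nu i + 2 * l) ≠ 0 ∧ sin (z - nu i + 3 * l) ≠ 0) :
    nh z mu nu = Pf z mu nu * sumU m M 0 fun n n' => ∑ a ∈ St m n, ∑ b ∈ St M n',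
      sta mu (fun u => hr (cn m) mu nu u * Th z u) a * sta nu (fun u => hr (cn M) nu mu u * Th z u) b *
        crq mu nu a b := by
  unfold PBS.nh
  rw [SS_eq_SG]
  have h1 : ∀ {k : ℕ} {x : Fin k → ℂ} (_ : ∀ i, sin (z - x i + 2 * l) ≠ 0 ∧ sin (z - x i + 3 * l) ≠ 0)
      (a : SignType) (i : Fin k), LL z a (x i) = ww a * ((Lw .pos (z - x i) * 1) *
        ((qn a (x i)).map (Th z)).prod) := by
    intro k x h a i
    unfold LL
    rw [Lw_eq a (h i).1 (h i).2]
    ring
  rw [SG_congr (LX' := fun a u => ww a * ((Lw .pos (z - u) * (fun _ => 1) u) * ((qn a u).map (Th z)).prod))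
    (LY' := fun b v => ww b * ((Lw .pos (z - v) * (fun _ => 1) v) * ((qn b v).map (Th z)).prod)) _
    (h1 hz) (h1 hz'), SG_qnU hmu hnu hc (fun u => Lw .pos (z - u) * (fun _ => 1) u)
    (fun u => Lw .pos (z - u) * (fun _ => 1) u) (Th z) (Th z), pre_prod, pre_prod, Pool.Agent.PB.PN_D]
  unfold Pool.Agent.PB.Pf
  have h23 : ((2 : ℂ) / 3) ^ (m + M + 1) ≠ 0 := pow_ne_zero _ (by norm_num)
  have h32 : ((3 : ℂ) / 2) ^ (m + M + 1) = 1 / (2 / 3) ^ (m + M + 1) := by
    rw [eq_div_iff h23, ← mul_pow]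
    norm_num
  rw [h32]
  simp only [Finset.prod_const_one, mul_one]
  generalize (sumU m M 0 fun n n' => ∑ a ∈ St m n, ∑ b ∈ St M n',
      sta mu (fun u => hr (cn m) mu nu u * Th z u) a * sta nu (fun u => hr (cn M) nu mu u * Th z u) b *
        crq mu nu a b) = S
  ring

/-- **one far row `x0` in the first group, generic rows: three states** -/
theorem nh_far1 {z x0 : ℂ} {m M : ℕ} {mu : Fin m → ℂ} {nu : Fin M → ℂ}
    (hmu : ∀ i j, i ≠ j → Gn (mu i - mu j)) (hnu : ∀ i j, i ≠ j → Gn (nu i - nu j))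
    (hc : ∀ i j, Gc (mu i - nu j))
    (hz : ∀ i, sin (z - mu i + 2 * l) ≠ 0 ∧ sin (z - mu i + 3 * l) ≠ 0)
    (hz' : ∀ i, sin (z - nu i + 2 * l) ≠ 0 ∧ sin (z - nu i + 3 * l) ≠ 0)
    (hf : ∀ i, Fr (x0 - mu i)) (hf' : ∀ i, Fr (x0 - nu i)) :
    nh z (Fin.cons x0 mu : Fin (m + 1) → ℂ) nu =
      ∑ e : SignType, Pf z mu nu * (k1 z e x0 * ((∏ i, kO e (x0 - mu i)) * ∏ j, kX e (x0 - nu j))) *
        sumU m M (-(e : ℤ)) fun n n' => ∑ a ∈ St m n, ∑ b ∈ St M n',
          sta mu (fun u => hr (cn m) mu nu u * (Th z u * Wo e (u - x0))) a *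
            sta nu (fun u => hr (cn M) nu mu u * (Th z u * Vo e (u - x0))) b * crq mu nu a b := by
  unfold PBS.nh
  rw [PN_consX, SS_eq_SG, SG_consX, Finset.mul_sum, Finset.sum_div]
  refine Finset.sum_congr rfl fun e _ => ?_
  rw [SG_congr (LX' := fun a u => ww a * ((Lw .pos (z - u) * (fun u => fw e .pos (x0 - u)) u) *
      ((qn a u).map fun w => Th z w * Wo e (w - x0)).prod))
    (LY' := fun b v => ww b * ((Lw .pos (z - v) * (fun v => gw .pos e (v - x0)) v) *
      ((qn b v).map fun w => Th z w * Vo e (w - x0)).prod)) _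
    (fun a i => so_qn e a (hf i) (hz i).1 (hz i).2) (fun b j => sc_qn e b (hf' j) (hz' j).1 (hz' j).2),
    SG_qnU hmu hnu hc (fun u => Lw .pos (z - u) * (fun u => fw e .pos (x0 - u)) u)
    (fun v => Lw .pos (z - v) * (fun v => gw .pos e (v - x0)) v) (fun w => Th z w * Wo e (w - x0))
    (fun w => Th z w * Vo e (w - x0)), pre_prod, pre_prod, Pool.Agent.PB.PN_D, zero_sub]
  unfold N1 k1 Pool.Agent.PB.Pf
  have hk : ∏ i, kO e (x0 - mu i) = (∏ i, fw e .pos (x0 - mu i)) / ∏ i, rh (x0 - mu i) ^ 2 := by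
    rw [← Finset.prod_div_distrib]
    rfl
  have hk' : ∏ j, kX e (x0 - nu j) = (∏ j, gw .pos e (nu j - x0)) / ∏ j, rh (x0 - nu j) ^ 2 := by
    rw [← Finset.prod_div_distrib]
    refine Finset.prod_congr rfl fun j _ => ?_
    unfold kX
    rw [neg_sub]
  rw [hk, hk']
  have h23 : ((2 : ℂ) / 3) ^ (m + M + 1) ≠ 0 := pow_ne_zero _ (by norm_num)
  have h32 : ((3 : ℂ) / 2) ^ (m + M + 1) = 1 / (2 / 3) ^ (m + M + 1) := by
    rw [eq_div_iff h23, ← mul_pow]
    norm_num
  rw [h32]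
  generalize (sumU m M (-(e : ℤ)) fun n n' => ∑ a ∈ St m n, ∑ b ∈ St M n',
          sta mu (fun u => hr (cn m) mu nu u * (Th z u * Wo e (u - x0))) a *
            sta nu (fun u => hr (cn M) nu mu u * (Th z u * Vo e (u - x0))) b * crq mu nu a b) = S
  generalize ∏ i, fw e .pos (x0 - mu i) = p1
  generalize ∏ j, gw .pos e (nu j - x0) = p2
  generalize ∏ i, rh (x0 - mu i) ^ 2 = p3
  generalize ∏ j, rh (x0 - nu j) ^ 2 = p4
  ring

end RX

end
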