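import Pool.Agent.PB.NHat

/-!
# Annihilation of the rows `x + 3 λ` and `x` (helper4; R3 of nu34/ISO_FAR)

* **`SS_ann`**: the state sum with the rows `x₀ + 3 λ`, `x₀` in both groups is an explicit factor times the
  state sum without them (only the states `(-, +)` survive);
* **`nh_ann`**: `nh z (x₀ + 3 λ, x₀, x) (x₀ + 3 λ, x₀, y) = nh z x y`, and `nh_ann'` for `x₀ - 3 λ`.
-/

set_option autoImplicit false
set_option linter.unusedSectionVars false
set_option linter.unusedSimpArgs false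

noncomputable section

open Complex

namespace PBS

open NUP1 (l)
open NUP1.Grand (P)
open NUP1.Mu (P_cons P_congr P_mul)
open PBR (rh r2 rh_mul rh_mul' rh_neg rh_ne_zero)

/-! ## values at `3 λ` -/

theorem sin_ne_k {k : ℝ} (h1 : 0 < k) (h2 : k < 8) : sin ((k : ℂ) * l) ≠ 0 := by
  have hl := l_pos
  have e : ((k : ℂ) * l).re = k * l := by rw [Complex.re_ofReal_mul, Complex.ofReal_re]
  refine sin_ne_of_bd ?_ ?_
  · rw [e]; positivity
  · rw [e]
    exact mul_lt_mul_of_pos_right h2 hl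

theorem s2_ne : sin (2 * (l : ℂ)) ≠ 0 := by
  have := sin_ne_k (k := 2) (by norm_num) (by norm_num)
  push_cast at this
  exact this

theorem s3_ne : sin (3 * (l : ℂ)) ≠ 0 := by
  have := sin_ne_k (k := 3) (by norm_num) (by norm_num)
  push_cast at this
  exact this

/-- the pair weight of `x + 3 λ` and `x` in the states `-`, `+` -/
theorem fw_np : fw .neg .pos (3 * l) = 1 := by
  have a5 : sin (3 * (l : ℂ) + 2 * l) = sin (3 * l) := by
    rw [← sin_refl (3 * l)]; congr 1; ring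
  have a6 : sin (3 * (l : ℂ) + 3 * l) = sin (2 * l) := by
    rw [← sin_refl (2 * l)]; congr 1; ring
  have a2 : sin (3 * (l : ℂ) - l) = sin (2 * l) := by congr 1; ring
  simp only [fw, a5, a6, a2]
  exact div_self (mul_ne_zero s3_ne s2_ne)

/-- all other states of the pair `x + 3 λ`, `x` have weight zero -/
theorem fw_three (c d : SignType) (h : c ≠ .neg ∨ d ≠ .pos) : fw c d (3 * l) = 0 := by
  have a0 : sin (3 * (l : ℂ) - 3 * l) = 0 := by rw [sub_self, sin_zero]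
  cases c <;> cases d <;> simp only [fw, a0, mul_zero, zero_mul, zero_div]
  rcases h with h | h <;> exact absurd rfl h

/-- the two new rows and a row of the same group -/
theorem ann_own (e : SignType) {w : ℂ} (h0 : sin w ≠ 0) (h1 : sin (w + l) ≠ 0)
    (h2 : sin (w + 2 * l) ≠ 0) (h3 : sin (w + 3 * l) ≠ 0) :
    fw .neg e (w + 3 * l) * fw .pos e w = Kw w ^ 2 := by
  have a6 : sin (w + 3 * l + 3 * l) = sin (2 * l - w) := by
    rw [← sin_refl (2 * l - w)]; congr 1; ring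
  have a5 : sin (w + 3 * l + 2 * l) = sin (3 * l - w) := by
    rw [← sin_refl (3 * l - w)]; congr 1; ring
  have b6 : sin (3 * l + (w + 3 * l)) = sin (2 * l - w) := by
    rw [← sin_refl (2 * l - w)]; congr 1; ring
  have b5 : sin (2 * l + (w + 3 * l)) = sin (3 * l - w) := by
    rw [← sin_refl (3 * l - w)]; congr 1; ring
  have b0 : sin (3 * l - (w + 3 * l)) = -sin w := by rw [← sin_neg]; congr 1; ring
  have b1 : sin (2 * l - (w + 3 * l)) = -sin (w + l) := by rw [← sin_neg]; congr 1; ring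
  have a2 : sin (w + 3 * l - l) = sin (w + 2 * l) := by congr 1; ring
  have c2 : sin (w - 2 * l) = -sin (2 * l - w) := by rw [← sin_neg]; congr 1; ring
  have c3 : sin (w - 3 * l) = -sin (3 * l - w) := by rw [← sin_neg]; congr 1; ring
  have d2 : sin (2 * l + w) = sin (w + 2 * l) := by congr 1; ring
  have d3 : sin (3 * l + w) = sin (w + 3 * l) := by congr 1; ring
  unfold Kw
  cases e <;> simp only [fw, a6, a5, b6, b5, b0, b1, a2, c2, c3, d2, d3]
  · generalize sin (3 * l - w) = s3m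
    generalize sin (2 * l - w) = s2m
    generalize sin (w + 3 * l) = s3p at *
    field_simp
  · generalize sin (3 * l - w) = s3m
    generalize sin (2 * l - w) = s2m
    field_simp
  · generalize sin (3 * l - w) = s3m
    generalize sin (2 * l - w) = s2m
    generalize sin (w + 2 * l) = s2p at *
    field_simp

/-- the two new rows and a row of the other group -/
theorem ann_cross (e : SignType) (w : ℂ) : gw .neg e (w + 3 * l) * gw .pos e w = Kw w ^ 2 := by
  have b6 : sin (3 * l + (w + 3 * l)) = sin (2 * l - w) := by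
    rw [← sin_refl (2 * l - w)]; congr 1; ring
  have b5 : sin (2 * l + (w + 3 * l)) = sin (3 * l - w) := by
    rw [← sin_refl (3 * l - w)]; congr 1; ring
  unfold Kw
  cases e <;> simp only [gw, b6, b5]
  · ring
  · ring
  · ring

/-- the cross weights of the two pairs -/
theorem ann_gg : gw .neg .neg 0 * gw .neg .pos (3 * l) * (gw .pos .neg (-(3 * l)) * gw .pos .pos 0) =
    (sin (2 * l) * sin (3 * l)) ^ 4 := by
  have b6 : sin (3 * (l : ℂ) + 3 * l) = sin (2 * l) := by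
    rw [← sin_refl (2 * l)]; congr 1; ring
  have b5 : sin (2 * (l : ℂ) + 3 * l) = sin (3 * l) := by
    rw [← sin_refl (3 * l)]; congr 1; ring
  have c6 : sin (3 * (l : ℂ) - -(3 * l)) = sin (2 * l) := by
    rw [← sin_refl (2 * l)]; congr 1; ring
  have c5 : sin (2 * (l : ℂ) - -(3 * l)) = sin (3 * l) := by
    rw [← sin_refl (3 * l)]; congr 1; ring
  simp only [gw, b6, b5, c6, c5]
  ring

/-- the legs and the two new rows -/
theorem ann_leg (w : ℂ) : Lw .neg (w - 3 * l) * Lw .pos w = (sin (2 * l + w) * sin (3 * l + w)) ^ 2 := by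
  have a6 : sin (w - 3 * l - 3 * l) = -sin (2 * l + w) := by
    have := sin_refl (2 * l + w)
    rw [← this, ← sin_neg]
    congr 1
    ring
  have a5 : sin (w - 3 * l - 2 * l) = -sin (3 * l + w) := by
    have := sin_refl (3 * l + w)
    rw [← this, ← sin_neg]
    congr 1
    ring
  have d2 : sin (w + 2 * l) = sin (2 * l + w) := by congr 1; ring
  have d3 : sin (w + 3 * l) = sin (3 * l + w) := by congr 1; ring
  simp only [Lw, a6, a5, d2, d3]
  ring

/-! ## one term -/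

/-- the rows `x₀ + 3 λ`, `x₀` and the rows `x` -/
def an {m : ℕ} (x0 : ℂ) (x : Fin m → ℂ) : Fin (m + 2) → ℂ :=
  Fin.cons (x0 + 3 * l) (Fin.cons x0 x : Fin (m + 1) → ℂ)

/-- the states of the rows `x₀ + 3 λ`, `x₀` and of the rows `x` -/
def sa {m : ℕ} (c d : SignType) (a : Fin m → SignType) : Fin (m + 2) → SignType :=
  Fin.cons c (Fin.cons d a : Fin (m + 1) → SignType)

theorem prod_an {m : ℕ} (x0 : ℂ) (x : Fin m → ℂ) (c d : SignType) (a : Fin m → SignType)
    (f : SignType → ℂ → ℂ) : ∏ i, f (sa c d a i) (an x0 x i) =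
      f c (x0 + 3 * l) * (f d x0 * ∏ i, f (a i) (x i)) := by
  unfold sa an
  rw [Fin.prod_univ_succ, Fin.prod_univ_succ]
  simp only [Fin.cons_zero, Fin.cons_succ]

theorem P_an {m : ℕ} (x0 : ℂ) (x : Fin m → ℂ) (c d : SignType) (a : Fin m → SignType)
    (f : SignType → SignType → ℂ → ℂ) :
    P (fun i j => f (sa c d a i) (sa c d a j) (an x0 x i - an x0 x j)) =
      f c d (3 * l) * (∏ j, f c (a j) (x0 + 3 * l - x j)) * ((∏ j, f d (a j) (x0 - x j)) *
        P (fun i j => f (a i) (a j) (x i - x j))) := by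
  have e : x0 + 3 * (l : ℂ) - x0 = 3 * l := by ring
  rw [P_cons, P_cons]
  unfold sa an
  rw [Fin.prod_univ_succ]
  simp only [Fin.cons_zero, Fin.cons_succ, e]

/-- a term vanishes unless the new rows are in the states `-`, `+` in both groups -/
theorem tm_ann_zero (z x0 : ℂ) {m M : ℕ} (x : Fin m → ℂ) (y : Fin M → ℂ) (c c' d d' : SignType)
    (a : Fin m → SignType) (b : Fin M → SignType)
    (h : (c ≠ .neg ∨ c' ≠ .pos) ∨ (d ≠ .neg ∨ d' ≠ .pos)) :
    tm z (an x0 x) (an x0 y) (sa c c' a) (sa d d' b) = 0 := by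
  unfold tm
  rw [P_an, P_an]
  rcases h with h | h
  · rw [fw_three c c' h]; simp
  · rw [fw_three d d' h]; simp

/-- the factor of the annihilation -/
def CA (z x0 : ℂ) {m M : ℕ} (x : Fin m → ℂ) (y : Fin M → ℂ) : ℂ :=
  sin l ^ 4 * (sin (2 * l) * sin (3 * l)) ^ 4 * (sin (2 * l + (z - x0)) * sin (3 * l + (z - x0))) ^ 4 *
    ((∏ i, Kw (x0 - x i) ^ 4) * ∏ j, Kw (x0 - y j) ^ 4)

theorem tm_ann {m M : ℕ} {z x0 : ℂ} {x : Fin m → ℂ} {y : Fin M → ℂ}
    (hx : ∀ i, sin (x0 - x i) ≠ 0 ∧ sin (x0 - x i + l) ≠ 0 ∧ sin (x0 - x i + 2 * l) ≠ 0 ∧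
      sin (x0 - x i + 3 * l) ≠ 0)
    (hy : ∀ i, sin (x0 - y i) ≠ 0 ∧ sin (x0 - y i + l) ≠ 0 ∧ sin (x0 - y i + 2 * l) ≠ 0 ∧
      sin (x0 - y i + 3 * l) ≠ 0)
    (a : Fin m → SignType) (b : Fin M → SignType) :
    tm z (an x0 x) (an x0 y) (sa .neg .pos a) (sa .neg .pos b) = CA z x0 x y * tm z x y a b := by
  unfold tm
  rw [P_an, P_an, prod_an x0 x .neg .pos a (fun s u => ww s * Lw s (z - u)),
    prod_an x0 y .neg .pos b (fun s u => ww s * Lw s (z - u)), fw_np]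
  have hgg : ∏ i, ∏ j, gw (sa .neg .pos a i) (sa .neg .pos b j) (an x0 x i - an x0 y j) =
      (gw .neg .neg 0 * gw .neg .pos (3 * l) * (gw .pos .neg (-(3 * l)) * gw .pos .pos 0)) *
      ((∏ j, gw .neg (b j) (x0 + 3 * l - y j)) * ∏ j, gw .pos (b j) (x0 - y j)) *
      ((∏ i, gw (a i) .neg (x i - (x0 + 3 * l))) * ∏ i, gw (a i) .pos (x i - x0)) *
      ∏ i, ∏ j, gw (a i) (b j) (x i - y j) := by
    rw [prod_an x0 x .neg .pos a (fun s u => ∏ j, gw s (sa .neg .pos b j) (u - an x0 y j))]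
    simp_rw [fun (s : SignType) (u : ℂ) => prod_an x0 y .neg .pos b (fun t v => gw s t (u - v))]
    rw [show x0 + 3 * (l : ℂ) - (x0 + 3 * l) = 0 by ring, show x0 + 3 * (l : ℂ) - x0 = 3 * l by ring,
      show x0 - (x0 + 3 * (l : ℂ)) = -(3 * l) by ring, sub_self]
    rw [Finset.prod_mul_distrib, Finset.prod_mul_distrib]
    ring
  rw [hgg, ann_gg]
  have eX : (∏ j, fw .neg (a j) (x0 + 3 * l - x j)) * (∏ j, fw .pos (a j) (x0 - x j)) *
      ((∏ i, gw (a i) .neg (x i - (x0 + 3 * l))) * ∏ i, gw (a i) .pos (x i - x0)) =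
      ∏ i, Kw (x0 - x i) ^ 4 := by
    rw [← Finset.prod_mul_distrib, ← Finset.prod_mul_distrib, ← Finset.prod_mul_distrib]
    refine Finset.prod_congr rfl fun i _ => ?_
    have h1 := ann_own (a i) (hx i).1 (hx i).2.1 (hx i).2.2.1 (hx i).2.2.2
    have h2 := ann_cross (a i) (x0 - x i)
    rw [show x i - (x0 + 3 * (l : ℂ)) = -(x0 - x i + 3 * l) by ring,
      show x i - x0 = -(x0 - x i) by ring, gw_neg, gw_neg,
      show x0 + 3 * (l : ℂ) - x i = x0 - x i + 3 * l by ring, h1, h2]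
    ring
  have eY : (∏ j, fw .neg (b j) (x0 + 3 * l - y j)) * (∏ j, fw .pos (b j) (x0 - y j)) *
      ((∏ j, gw .neg (b j) (x0 + 3 * l - y j)) * ∏ j, gw .pos (b j) (x0 - y j)) =
      ∏ i, Kw (x0 - y i) ^ 4 := by
    rw [← Finset.prod_mul_distrib, ← Finset.prod_mul_distrib, ← Finset.prod_mul_distrib]
    refine Finset.prod_congr rfl fun i _ => ?_
    have h1 := ann_own (b i) (hy i).1 (hy i).2.1 (hy i).2.2.1 (hy i).2.2.2
    have h2 := ann_cross (b i) (x0 - y i)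
    rw [show x0 + 3 * (l : ℂ) - y i = x0 - y i + 3 * l by ring, h1, h2]
    ring
  have eL : ww .neg * Lw .neg (z - (x0 + 3 * l)) * (ww .pos * Lw .pos (z - x0)) =
      sin l ^ 2 * (sin (2 * l + (z - x0)) * sin (3 * l + (z - x0))) ^ 2 := by
    rw [show z - (x0 + 3 * (l : ℂ)) = z - x0 - 3 * l by ring, ← ann_leg]
    show sin (l : ℂ) * Lw .neg (z - x0 - 3 * l) * (sin (l : ℂ) * Lw .pos (z - x0)) = _
    ring
  unfold CA
  rw [← eX, ← eY]
  generalize (∏ j, fw .neg (a j) (x0 + 3 * l - x j)) = A1 at *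
  generalize (∏ j, fw .pos (a j) (x0 - x j)) = A2 at *
  generalize (∏ i, gw (a i) .neg (x i - (x0 + 3 * l))) = A3 at *
  generalize (∏ i, gw (a i) .pos (x i - x0)) = A4 at *
  generalize (∏ j, fw .neg (b j) (x0 + 3 * l - y j)) = B1 at *
  generalize (∏ j, fw .pos (b j) (x0 - y j)) = B2 at *
  generalize (∏ j, gw .neg (b j) (x0 + 3 * l - y j)) = B3 at *
  generalize (∏ j, gw .pos (b j) (x0 - y j)) = B4 at *
  generalize (∏ i, ww (a i) * Lw (a i) (z - x i)) = D1 at *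
  generalize (∏ i, ww (b i) * Lw (b i) (z - y i)) = D2 at *
  generalize (P fun i j => fw (a i) (a j) (x i - x j)) = P1 at *
  generalize (P fun i j => fw (b i) (b j) (y i - y j)) = P2 at *
  generalize (∏ i, ∏ j, gw (a i) (b j) (x i - y j)) = GG at *
  generalize ww .neg * Lw .neg (z - (x0 + 3 * l)) = L1 at *
  generalize ww .pos * Lw .pos (z - x0) = L2 at *
  have h4 : (L1 * L2) ^ 2 = sin l ^ 4 * (sin (2 * l + (z - x0)) * sin (3 * l + (z - x0))) ^ 4 := by
    rw [eL]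
    ring
  linear_combination (A1 * A2 * (A3 * A4) * (B1 * B2 * (B3 * B4)) * D1 * D2 * P1 * P2 * GG *
    (sin (2 * l) * sin (3 * l)) ^ 4) * h4

/-- **(K3)**: the rows `x₀ + 3 λ`, `x₀` annihilate -/
theorem SS_ann {m M : ℕ} {z x0 : ℂ} {x : Fin m → ℂ} {y : Fin M → ℂ}
    (hx : ∀ i, sin (x0 - x i) ≠ 0 ∧ sin (x0 - x i + l) ≠ 0 ∧ sin (x0 - x i + 2 * l) ≠ 0 ∧
      sin (x0 - x i + 3 * l) ≠ 0)
    (hy : ∀ i, sin (x0 - y i) ≠ 0 ∧ sin (x0 - y i + l) ≠ 0 ∧ sin (x0 - y i + 2 * l) ≠ 0 ∧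
      sin (x0 - y i + 3 * l) ≠ 0) :
    SS z (an x0 x) (an x0 y) = CA z x0 x y * SS z x y := by
  unfold SS
  rw [mul_left_comm]
  congr 1
  rw [Finset.mul_sum, sum_cons, Finset.sum_eq_single_of_mem (SignType.neg) (Finset.mem_univ _), sum_cons,
    Finset.sum_eq_single_of_mem (SignType.pos) (Finset.mem_univ _)]
  · refine Finset.sum_congr rfl fun a _ => ?_
    rw [Finset.mul_sum, sum_cons, Finset.sum_eq_single_of_mem (SignType.neg) (Finset.mem_univ _), sum_cons,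
      Finset.sum_eq_single_of_mem (SignType.pos) (Finset.mem_univ _)]
    · refine Finset.sum_congr rfl fun b _ => ?_
      have hs : ∀ {k : ℕ} (c : Fin k → SignType), ∑ i, ((sa .neg .pos c i : SignType) : ℤ) = ∑ i, (c i : ℤ) := by
        intro k c
        unfold sa
        rw [Fin.sum_univ_succ, Fin.sum_univ_succ]
        simp only [Fin.cons_zero, Fin.cons_succ]
        have h1 : ((SignType.neg : SignType) : ℤ) = -1 := rfl
        have h2 : ((SignType.pos : SignType) : ℤ) = 1 := rfl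
        rw [h1, h2]
        ring
      have e : (∑ i, ((sa .neg .pos a i : SignType) : ℤ) = ∑ j, ((sa .neg .pos b j : SignType) : ℤ)) ↔
          ∑ i, (a i : ℤ) = ∑ j, (b j : ℤ) := by
        rw [hs, hs]
      have e2 : (if ∑ i, ((sa .neg .pos a i : SignType) : ℤ) = ∑ j, ((sa .neg .pos b j : SignType) : ℤ) then
          tm z (an x0 x) (an x0 y) (sa .neg .pos a) (sa .neg .pos b) else 0) =
          CA z x0 x y * (if ∑ i, (a i : ℤ) = ∑ j, (b j : ℤ) then tm z x y a b else 0) := by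
        rw [if_congr e rfl rfl, tm_ann hx hy, mul_ite, mul_zero]
      exact e2
    · intro d _ hd
      refine Finset.sum_eq_zero fun b _ => ?_
      have := tm_ann_zero z x0 x y .neg .pos .neg d a b (Or.inr (Or.inr hd))
      exact if_congr Iff.rfl this rfl |>.trans (ite_self _)
    · intro d _ hd
      rw [sum_cons]
      refine Finset.sum_eq_zero fun d' _ => Finset.sum_eq_zero fun b _ => ?_
      have := tm_ann_zero z x0 x y .neg .pos d d' a b (Or.inr (Or.inl hd))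
      exact if_congr Iff.rfl this rfl |>.trans (ite_self _)
  · intro d _ hd
    refine Finset.sum_eq_zero fun a _ => ?_
    rw [sum_cons]
    refine Finset.sum_eq_zero fun e _ => ?_
    rw [sum_cons]
    refine Finset.sum_eq_zero fun e' _ => Finset.sum_eq_zero fun b _ => ?_
    have := tm_ann_zero z x0 x y .neg d e e' a b (Or.inl (Or.inr hd))
    exact if_congr Iff.rfl this rfl |>.trans (ite_self _)
  · intro d _ hd
    rw [sum_cons]
    refine Finset.sum_eq_zero fun d' _ => Finset.sum_eq_zero fun a _ => ?_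
    rw [sum_cons]
    refine Finset.sum_eq_zero fun e _ => ?_
    rw [sum_cons]
    refine Finset.sum_eq_zero fun e' _ => Finset.sum_eq_zero fun b _ => ?_
    have := tm_ann_zero z x0 x y d d' e e' a b (Or.inl (Or.inl hd))
    exact if_congr Iff.rfl this rfl |>.trans (ite_self _)

/-! ## the normaliser -/

theorem const_ann : (2 / 3 : ℂ) ^ 4 * rh 0 ^ 4 * rh (3 * l) ^ 8 =
    sin l ^ 4 * (sin (2 * l) * sin (3 * l)) ^ 4 := by
  have h := const_eq
  rw [Lw3_pos] at h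
  linear_combination ((2 / 3 : ℂ) ^ 2 * rh 0 ^ 2 * rh (3 * l) ^ 4 +
    (sin l * (sin (2 * (l : ℂ)) * sin (3 * l))) ^ 2) * h

/-- the normaliser with the rows `x₀ + 3 λ`, `x₀` -/
theorem PN_ann {m M : ℕ} {z x0 : ℂ} {x : Fin m → ℂ} {y : Fin M → ℂ} (h0 : |x0.re| ≤ l / 2)
    (hz : |z.re| ≤ l / 2) (hx : Rw x) (hy : Rw y) :
    PN z (an x0 x) (an x0 y) = CA z x0 x y * PN z x y := by
  have hl := l_pos
  have key : ∀ u : ℂ, |u.re| ≤ l / 2 → rh (x0 - u) * rh (x0 + 3 * l - u) = Kw (x0 - u) := by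
    intro u hu
    have h := rw_sub h0 hu
    have e : x0 + 3 * (l : ℂ) - u = x0 - u + 3 * l := by ring
    rw [e, rh_mul (by linarith) (by
      have h' := abs_le.1 h
      rw [abs_lt]
      constructor <;> linarith)]
    unfold Kw
    ring
  have keyz : rh (z - x0) * rh (z - (x0 + 3 * l)) = sin (2 * l + (z - x0)) * sin (3 * l + (z - x0)) := by
    have h := rw_sub hz h0
    have e : z - (x0 + 3 * (l : ℂ)) = z - x0 - 3 * l := by ring
    rw [e, rh_mul' (by linarith) (by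
      have h' := abs_le.1 h
      rw [abs_lt]
      constructor <;> linarith)]
    ring
  have hP : ∀ {k : ℕ} (u : Fin k → ℂ), Rw u → P (fun i j => rh (an x0 u i - an x0 u j) ^ 2) =
      rh (3 * l) ^ 2 * (∏ j, Kw (x0 - u j) ^ 2) * P (fun i j => rh (u i - u j) ^ 2) := by
    intro k u hu
    have e : x0 + 3 * (l : ℂ) - x0 = 3 * l := by ring
    have e1 : ∏ j, Kw (x0 - u j) ^ 2 = (∏ j, rh (x0 + 3 * l - u j) ^ 2) * ∏ j, rh (x0 - u j) ^ 2 := by
      rw [← Finset.prod_mul_distrib]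
      exact Finset.prod_congr rfl fun i _ => by rw [← key _ (hu i)]; ring
    rw [P_cons, P_cons]
    unfold an
    rw [Fin.prod_univ_succ]
    simp only [Fin.cons_zero, Fin.cons_succ, e]
    rw [e1]
    ring
  have hL : ∀ {k : ℕ} (u : Fin k → ℂ), ∏ i, rh (z - an x0 u i) ^ 2 =
      (sin (2 * l + (z - x0)) * sin (3 * l + (z - x0))) ^ 2 * ∏ i, rh (z - u i) ^ 2 := by
    intro k u
    unfold an
    rw [Fin.prod_univ_succ, Fin.prod_univ_succ]
    simp only [Fin.cons_zero, Fin.cons_succ]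
    rw [← keyz]
    ring
  have hG : ∏ i, ∏ j, rh (an x0 x i - an x0 y j) ^ 2 = rh 0 ^ 4 * rh (3 * l) ^ 4 *
      ((∏ i, Kw (x0 - x i) ^ 2) * ∏ j, Kw (x0 - y j) ^ 2) * ∏ i, ∏ j, rh (x i - y j) ^ 2 := by
    have eX : ∏ j, Kw (x0 - x j) ^ 2 = (∏ j, rh (x j - (x0 + 3 * l)) ^ 2) * ∏ j, rh (x j - x0) ^ 2 := by
      rw [← Finset.prod_mul_distrib]
      exact Finset.prod_congr rfl fun i _ => by rw [← key _ (hx i), rh_sub (x i), rh_sub (x i)]; ring
    have eY : ∏ j, Kw (x0 - y j) ^ 2 = (∏ j, rh (x0 + 3 * l - y j) ^ 2) * ∏ j, rh (x0 - y j) ^ 2 := by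
      rw [← Finset.prod_mul_distrib]
      exact Finset.prod_congr rfl fun i _ => by rw [← key _ (hy i)]; ring
    have hin : ∀ u : ℂ, ∏ j, rh (u - an x0 y j) ^ 2 =
        rh (u - (x0 + 3 * l)) ^ 2 * (rh (u - x0) ^ 2 * ∏ j, rh (u - y j) ^ 2) := by
      intro u
      unfold an
      rw [Fin.prod_univ_succ, Fin.prod_univ_succ]
      simp only [Fin.cons_zero, Fin.cons_succ]
    simp only [hin]
    have hout : ∏ i, rh (an x0 x i - (x0 + 3 * l)) ^ 2 * (rh (an x0 x i - x0) ^ 2 *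
        ∏ j, rh (an x0 x i - y j) ^ 2) =
        rh (x0 + 3 * l - (x0 + 3 * l)) ^ 2 * (rh (x0 + 3 * l - x0) ^ 2 * ∏ j, rh (x0 + 3 * l - y j) ^ 2) *
        (rh (x0 - (x0 + 3 * l)) ^ 2 * (rh (x0 - x0) ^ 2 * ∏ j, rh (x0 - y j) ^ 2) *
        ∏ i, rh (x i - (x0 + 3 * l)) ^ 2 * (rh (x i - x0) ^ 2 * ∏ j, rh (x i - y j) ^ 2)) := by
      unfold an
      rw [Fin.prod_univ_succ, Fin.prod_univ_succ]
      simp only [Fin.cons_zero, Fin.cons_succ]
    rw [hout, show x0 + 3 * (l : ℂ) - (x0 + 3 * l) = 0 by ring, show x0 + 3 * (l : ℂ) - x0 = 3 * l by ring,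
      rh_sub x0 (x0 + 3 * l), show x0 + 3 * (l : ℂ) - x0 = 3 * l by ring, sub_self,
      Finset.prod_mul_distrib, Finset.prod_mul_distrib, eX, eY]
    ring
  unfold PN
  rw [hP x hx, hP y hy, hL, hL, hG]
  unfold CA
  rw [show m + 2 + (M + 2) + 1 = (m + M + 1) + 4 by ring, pow_add (2 / 3 : ℂ) (m + M + 1) 4]
  have eX4 : ∏ i, Kw (x0 - x i) ^ 4 = (∏ i, Kw (x0 - x i) ^ 2) ^ 2 := by
    rw [← Finset.prod_pow]
    exact Finset.prod_congr rfl fun i _ => by ring
  have eY4 : ∏ i, Kw (x0 - y i) ^ 4 = (∏ i, Kw (x0 - y i) ^ 2) ^ 2 := by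
    rw [← Finset.prod_pow]
    exact Finset.prod_congr rfl fun i _ => by ring
  rw [eX4, eY4, ← const_ann]
  ring

/-- sines of rows of the strip -/
theorem ann_gen {x0 u : ℂ} (h0 : |x0.re| ≤ l / 2) (hu : |u.re| ≤ l / 2) (h1 : sin (x0 - u) ≠ 0)
    (h2 : sin (x0 - u + l) ≠ 0) : sin (x0 - u) ≠ 0 ∧ sin (x0 - u + l) ≠ 0 ∧ sin (x0 - u + 2 * l) ≠ 0 ∧
      sin (x0 - u + 3 * l) ≠ 0 := by
  have hl := l_pos
  have h := abs_le.1 (rw_sub h0 hu)
  have e : ∀ k : ℝ, (x0 - u + (k : ℂ) * l).re = (x0 - u).re + k * l := fun k => by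
    rw [Complex.add_re, Complex.re_ofReal_mul, Complex.ofReal_re]
  have e2 := e 2
  have e3 := e 3
  push_cast at e2 e3
  refine ⟨h1, h2, sin_ne_of_bd ?_ ?_, sin_ne_of_bd ?_ ?_⟩
  · rw [e2]; linarith
  · rw [e2]; linarith
  · rw [e3]; linarith
  · rw [e3]; linarith

theorem CA_ne {m M : ℕ} {z x0 : ℂ} {x : Fin m → ℂ} {y : Fin M → ℂ} (h0 : |x0.re| ≤ l / 2)
    (hz : |z.re| ≤ l / 2) (hx : Rw x) (hy : Rw y) : CA z x0 x y ≠ 0 := by
  have hl := l_pos
  have h := abs_le.1 (rw_sub hz h0)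
  have e : ∀ k : ℝ, ((k : ℂ) * l + (z - x0)).re = k * l + (z - x0).re := fun k => by
    rw [Complex.add_re, Complex.re_ofReal_mul, Complex.ofReal_re]
  have e2 := e 2
  have e3 := e 3
  push_cast at e2 e3
  have hs : sin (l : ℂ) ≠ 0 := by
    have := sin_ne_k (k := 1) (by norm_num) (by norm_num)
    push_cast at this
    rwa [one_mul] at this
  unfold CA
  refine mul_ne_zero (mul_ne_zero (mul_ne_zero (pow_ne_zero _ hs) (pow_ne_zero _
    (mul_ne_zero s2_ne s3_ne))) (pow_ne_zero _ (mul_ne_zero (sin_ne_of_bd ?_ ?_) (sin_ne_of_bd ?_ ?_))))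
    (mul_ne_zero ?_ ?_)
  · rw [e2]; linarith
  · rw [e2]; linarith
  · rw [e3]; linarith
  · rw [e3]; linarith
  · exact Finset.prod_ne_zero_iff.2 fun i _ => pow_ne_zero _ (Kw_ne (rw_sub h0 (hx i)))
  · exact Finset.prod_ne_zero_iff.2 fun i _ => pow_ne_zero _ (Kw_ne (rw_sub h0 (hy i)))

/-- **annihilation**: `n (z; x₀ + 3 λ, x₀, x | x₀ + 3 λ, x₀, y) = n (z; x | y)` -/
theorem nh_ann {m M : ℕ} {z x0 : ℂ} {x : Fin m → ℂ} {y : Fin M → ℂ} (h0 : |x0.re| ≤ l / 2)
    (hz : |z.re| ≤ l / 2) (hx : Rw x) (hy : Rw y)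
    (sx : ∀ i, sin (x0 - x i) ≠ 0 ∧ sin (x0 - x i + l) ≠ 0)
    (sy : ∀ i, sin (x0 - y i) ≠ 0 ∧ sin (x0 - y i + l) ≠ 0) :
    nh z (an x0 x) (an x0 y) = nh z x y := by
  unfold nh
  rw [SS_ann (fun i => ann_gen h0 (hx i) (sx i).1 (sx i).2) (fun i => ann_gen h0 (hy i) (sy i).1 (sy i).2),
    PN_ann h0 hz hx hy]
  exact mul_div_mul_left _ _ (CA_ne h0 hz hx hy)

/-- the rows `x₀ - 3 λ`, `x₀` and the rows `x` -/
def an' {m : ℕ} (x0 : ℂ) (x : Fin m → ℂ) : Fin (m + 2) → ℂ :=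
  Fin.cons (x0 - 3 * l) (Fin.cons x0 x : Fin (m + 1) → ℂ)

theorem an_neg {m : ℕ} (x0 : ℂ) (x : Fin m → ℂ) : -an' x0 x = an (-x0) (-x) := by
  funext i
  unfold an an'
  refine Fin.cases ?_ (fun j => Fin.cases ?_ (fun k => ?_) j) i
  · simp
    ring
  · simp
  · simp

/-- **annihilation**, left side -/
theorem nh_ann' {m M : ℕ} {z x0 : ℂ} {x : Fin m → ℂ} {y : Fin M → ℂ} (h0 : |x0.re| ≤ l / 2)
    (hz : |z.re| ≤ l / 2) (hx : Rw x) (hy : Rw y)
    (sx : ∀ i, sin (x0 - x i) ≠ 0 ∧ sin (x0 - x i - l) ≠ 0)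
    (sy : ∀ i, sin (x0 - y i) ≠ 0 ∧ sin (x0 - y i - l) ≠ 0) :
    nh z (an' x0 x) (an' x0 y) = nh z x y := by
  have e2 : ∀ {k : ℕ} {u : Fin k → ℂ}, (∀ i, sin (x0 - u i) ≠ 0 ∧ sin (x0 - u i - l) ≠ 0) →
      ∀ i, sin (-x0 - (-u) i) ≠ 0 ∧ sin (-x0 - (-u) i + l) ≠ 0 := by
    intro k u h i
    obtain ⟨h1, h2⟩ := h i
    constructor
    · intro h0
      apply h1
      rw [← neg_eq_zero, ← sin_neg, ← h0]
      congr 1
      simp
      ring
    · intro h0
      apply h2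
      rw [← neg_eq_zero, ← sin_neg, ← h0]
      congr 1
      simp
      ring
  have e3 : ∀ {k : ℕ} {u : Fin k → ℂ}, Rw u → Rw (-u) := by
    intro k u h i
    simpa using h i
  rw [← nh_neg, an_neg, an_neg, nh_ann (by simpa using h0) (by simpa using hz) (e3 hx) (e3 hy) (e2 sx) (e2 sy),
    nh_neg]

end PBS

end
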