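import Pool.Agent.RX.Defs
import Pool.Agent.PB.NzB
import Pool.Agent.NUP1L.Link4

/-!
# FAR: the charged state sums in terms of quanta (nu34/ISO_FAR, R1)

* `Wo e`, `Vo f`: the factor of a quantum of the own / the other group in the presence of a far row in the
  state `e` / `f`; `fw_qn`, `gw_qn`;
* **`SG_qn`**: a charged state sum whose spectator is a product over the quanta, rows at pairwise generic
  places, is the sum over the numbers `n`, `n' = n + Q` of quanta of the sums over the states with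
  one body function `hr (cn m) x y * s`.
-/

set_option autoImplicit false
set_option linter.unusedSectionVars false
set_option linter.unusedSimpArgs false

noncomputable section

open Complex

namespace RX

open NUP1 (l q rho St sta crq)
open NUP1.Bd (qg)
open NUP1.Grand (P)
open NUP1.Mu (v1 v2 cr QQ QG pr Gn Gc nq qn sw hrow prod_ne v2_self v2_self_ne sin1_ne sin2_ne
  sin3_ne P_mul P_both P_congr P_cons sin_eight)
open NUP1.Leg (hr)
open PBS (SS tm fw gw Lw ww sum_cons P_perm fw_neg gw_neg fw_eq gw_eq row_eq P_eq_sq Th Lw_eq)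
open Pool.Agent.PB (cn)

/-! ## the factors of a far row -/

/-- own group -/
def Wo : SignType → ℂ → ℂ
  | .pos, v => -1 / (sin v * sin (v - 2 * l))
  | .zero, v => sin v * sin (v + 2 * l) / (sin (v - l) * sin (v + l))
  | .neg, v => -(sin (v + l) * sin (v + 3 * l))

/-- other group -/
def Vo : SignType → ℂ → ℂ
  | .pos, v => sin (v + 3 * l) ^ 2
  | .zero, v => cos v ^ 2 / sin (v - 3 * l) ^ 2
  | .neg, v => 1 / sin (v - 2 * l) ^ 2

/-- no zero near a far row on the right: `w = x0 - u` -/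
def Fr (w : ℂ) : Prop := ∀ k : ℤ, -1 ≤ k → k ≤ 4 → sin (w + k * l) ≠ 0

theorem Fr_of {w : ℂ} (h1 : (l : ℝ) < w.re) (h2 : w.re < 4 * l) : Fr w := by
  intro k h3 h4
  have hl := PBS.l_pos
  have e : (w + (k : ℂ) * l).re = w.re + k * l := by simp
  have k1 : (-1 : ℝ) ≤ k := by exact_mod_cast h3
  have k2 : (k : ℝ) ≤ 4 := by exact_mod_cast h4
  refine PBS.sin_ne_of_bd ?_ ?_
  · rw [e]
    nlinarith
  · rw [e]
    nlinarith

theorem fw_qn (e a : SignType) {x0 u : ℂ} (h : Fr (x0 - u)) :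
    fw e a (x0 - u) = fw e .pos (x0 - u) * ((qn a u).map fun w => Wo e (w - x0)).prod := by
  set w := x0 - u with hw
  set sm := sin (w - l) with hsm
  set s0 := sin w with hs0
  set s1 := sin (w + l) with hs1
  set s2 := sin (w + 2 * l) with hs2
  set s3 := sin (w + 3 * l) with hs3
  set s4 := sin (w + 4 * l) with hs4
  have nm : sm ≠ 0 := by
    have := h (-1) (by norm_num) (by norm_num)
    rwa [show w + ((-1 : ℤ) : ℂ) * l = w - l by push_cast; ring] at this
  have n0 : s0 ≠ 0 := by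
    have := h 0 (by norm_num) (by norm_num)
    rwa [show w + ((0 : ℤ) : ℂ) * l = w by push_cast; ring] at this
  have n1 : s1 ≠ 0 := by
    have := h 1 (by norm_num) (by norm_num)
    rwa [show w + ((1 : ℤ) : ℂ) * l = w + l by push_cast; ring] at this
  have n2 : s2 ≠ 0 := by
    have := h 2 (by norm_num) (by norm_num)
    rwa [show w + ((2 : ℤ) : ℂ) * l = w + 2 * l by push_cast; ring] at this
  have n3 : s3 ≠ 0 := by
    have := h 3 (by norm_num) (by norm_num)
    rwa [show w + ((3 : ℤ) : ℂ) * l = w + 3 * l by push_cast; ring] at this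
  -- the sines at `v = u - x0 = -w`
  have a0 : sin (u - x0) = -s0 := by rw [hs0, ← sin_neg]; congr 1; rw [hw]; ring
  have a1 : sin (u - x0 - 2 * l) = -s2 := by rw [hs2, ← sin_neg]; congr 1; rw [hw]; ring
  have a2 : sin (u - x0 - l) = -s1 := by rw [hs1, ← sin_neg]; congr 1; rw [hw]; ring
  have a3 : sin (u - x0 + l) = -sm := by rw [hsm, ← sin_neg]; congr 1; rw [hw]; ring
  have a4 : sin (u - l - x0) = -s1 := by rw [hs1, ← sin_neg]; congr 1; rw [hw]; ring
  have a5 : sin (u - l - x0 - 2 * l) = -s3 := by rw [hs3, ← sin_neg]; congr 1; rw [hw]; ring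
  have a6 : sin (u - l - x0 - l) = -s2 := by rw [hs2, ← sin_neg]; congr 1; rw [hw]; ring
  have a7 : sin (u - l - x0 + l) = -s0 := by rw [hs0, ← sin_neg]; congr 1; rw [hw]; ring
  have a8 : sin (u - l - x0 + 2 * l) = -sm := by rw [hsm, ← sin_neg]; congr 1; rw [hw]; ring
  have a9 : sin (u - x0 + 2 * l) = sin (2 * l - w) := by congr 1; rw [hw]; ring
  have b1 : sin (u - x0 + 3 * l) = sin (3 * l - w) := by congr 1; rw [hw]; ring
  have b2 : sin (u - l - x0 + 3 * l) = sin (2 * l - w) := by congr 1; rw [hw]; ring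
  have c1 : sin (2 * l + w) = s2 := by rw [hs2]; congr 1; ring
  have c2 : sin (3 * l + w) = s3 := by rw [hs3]; congr 1; ring
  have c3 : sin (w - 2 * l) = -sin (2 * l - w) := by rw [← sin_neg]; congr 1; ring
  have c4 : sin (w - 3 * l) = -sin (3 * l - w) := by rw [← sin_neg]; congr 1; ring
  have c5 : sin (l + w) = s1 := by rw [hs1]; congr 1; ring
  have c6 : sin (l - w) = -sm := by rw [hsm, ← sin_neg]; congr 1; ring
  set t2 := sin (2 * l - w) with ht2
  set t3 := sin (3 * l - w) with ht3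
  clear_value sm s0 s1 s2 s3 s4 t2 t3
  cases e <;> cases a <;>
    simp only [fw, Wo, qn, List.map_cons, List.map_nil, List.prod_cons, List.prod_nil, mul_one,
      a0, a1, a2, a3, a4, a5, a6, a7, a8, a9, b1, b2, c1, c2, c3, c4, c5, c6, ← hs0, ← hs1, ← hs2, ← hs3,
      ← hsm, ← ht2, ← ht3] <;>
    (try field_simp)

theorem gw_qn (a f : SignType) {y0 u : ℂ} (h : Fr (y0 - u)) :
    gw a f (u - y0) = gw .pos f (u - y0) * ((qn a u).map fun w => Vo f (w - y0)).prod := by
  set w := y0 - u with hw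
  set s2 := sin (w + 2 * l) with hs2
  set s3 := sin (w + 3 * l) with hs3
  set s4 := sin (w + 4 * l) with hs4
  have n2 : s2 ≠ 0 := by
    have := h 2 (by norm_num) (by norm_num)
    rwa [show w + ((2 : ℤ) : ℂ) * l = w + 2 * l by push_cast; ring] at this
  have n3 : s3 ≠ 0 := by
    have := h 3 (by norm_num) (by norm_num)
    rwa [show w + ((3 : ℤ) : ℂ) * l = w + 3 * l by push_cast; ring] at this
  have n4 : s4 ≠ 0 := by
    have := h 4 (by norm_num) (by norm_num)
    rwa [show w + ((4 : ℤ) : ℂ) * l = w + 4 * l by push_cast; ring] at this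
  have e4 : ∀ z : ℂ, cos z = sin (z + 4 * l) := fun z => by
    have : (4 : ℂ) * (l : ℂ) = Real.pi / 2 := by
      unfold l
      push_cast
      ring
    rw [this, sin_add_pi_div_two]
  have a0 : sin (u - y0 - 2 * l) = -s2 := by rw [hs2, ← sin_neg]; congr 1; rw [hw]; ring
  have a1 : sin (u - y0 - 3 * l) = -s3 := by rw [hs3, ← sin_neg]; congr 1; rw [hw]; ring
  have a2 : sin (u - l - y0 - 2 * l) = -s3 := by rw [hs3, ← sin_neg]; congr 1; rw [hw]; ring
  have a3 : sin (u - l - y0 - 3 * l) = -s4 := by rw [hs4, ← sin_neg]; congr 1; rw [hw]; ring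
  have a4 : cos (u - y0) = s4 := by
    rw [← Complex.cos_neg, e4, hs4]; congr 1; rw [hw]; ring
  have a5 : sin (u - y0 + 3 * l) = sin (3 * l - w) := by congr 1; rw [hw]; ring
  have a6 : sin (u - l - y0 + 3 * l) = sin (2 * l - w) := by congr 1; rw [hw]; ring
  have a7 : cos (u - l - y0) = sin (3 * l - w) := by
    rw [e4]; congr 1; rw [hw]; ring
  have b1 : sin (3 * l + (u - y0)) = sin (3 * l - w) := by congr 1; rw [hw]; ring
  have b2 : sin (2 * l + (u - y0)) = sin (2 * l - w) := by congr 1; rw [hw]; ring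
  have b3 : sin (3 * l - (u - y0)) = s3 := by rw [hs3]; congr 1; rw [hw]; ring
  have b4 : sin (2 * l - (u - y0)) = s2 := by rw [hs2]; congr 1; rw [hw]; ring
  set t2 := sin (2 * l - w) with ht2
  set t3 := sin (3 * l - w) with ht3
  clear_value s2 s3 s4 t2 t3
  cases f <;> cases a <;>
    simp only [gw, Vo, qn, List.map_cons, List.map_nil, List.prod_cons, List.prod_nil, mul_one, one_mul,
      a0, a1, a2, a3, a4, a5, a6, a7, b1, b2, b3, b4] <;>
    (try field_simp)

/-! ## quanta -/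

/-- the body function multiplied by a constant -/
theorem sta_scale (κ : ℂ) {m : ℕ} (x : Fin m → ℂ) (h : ℂ → ℂ) (a : Fin m → SignType) :
    sta x (fun u => κ * h u) a = κ ^ (∑ i, NUP1.nq (a i)) * sta x h a := by
  unfold NUP1.sta
  have e : ∀ i, NUP1.sw (a i) (fun u => κ * h u) (x i) = κ ^ NUP1.nq (a i) * NUP1.sw (a i) h (x i) := by
    intro i
    have h1 := NUP1.sw_mul (a i) h (fun _ => κ) (x i)
    have h2 : (fun u => κ * h u) = fun u => h u * (fun _ => κ) u := by
      funext u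
      ring
    rw [h2, h1, List.map_const', List.prod_replicate, NUP1.qu_length]
    ring
  rw [Finset.prod_congr rfl fun i _ => e i, Finset.prod_mul_distrib, Finset.prod_pow_eq_pow_sum]
  ring

/-- the factor of one group that does not depend on the states -/
def preG (R : ℂ → ℂ) {m : ℕ} (x : Fin m → ℂ) : ℂ :=
  (∏ i, sin l * R (x i)) * P (fun i j => fw .pos .pos (x i - x j))

theorem tg_eq {m : ℕ} {x y : Fin m → ℂ} (hx : ∀ i j, i ≠ j → Gn (x i - x j))
    (hy : ∀ i j, i ≠ j → Gn (y i - y j)) (hxy : ∀ i j, Gc (x i - y j)) (R T s t : ℂ → ℂ)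
    (a b : Fin m → SignType) :
    tg (fun a u => ww a * (R u * ((qn a u).map s).prod)) (fun b v => ww b * (T v * ((qn b v).map t).prod))
      x y a b = preG R x * preG T y *
      ((((-1) ^ (∑ i, NUP1.nq (a i))) ^ (m + 1) * ((-1) ^ (∑ i, NUP1.nq (b i))) ^ (m + 1)) *
      (sta x (fun u => hrow (2 * sin l) x y u * s u) a *
        sta y (fun u => hrow (2 * sin l) y x u * t u) b * crq x y a b)) := by
  have hG : ∏ i, ∏ j, gw (a i) (b j) (x i - y j) =
      (∏ i, ∏ j, QG (a i) (b j) (x i) (y j)) *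
      ((∏ i, ∏ j, cr (a i) (x i) (y j)) * (∏ j, ∏ i, cr (b j) (y j) (x i))) := by
    rw [Finset.prod_comm (f := fun j i => cr (b j) (y j) (x i)), ← Finset.prod_mul_distrib,
      ← Finset.prod_mul_distrib]
    refine Finset.prod_congr rfl fun i _ => ?_
    rw [← Finset.prod_mul_distrib, ← Finset.prod_mul_distrib]
    exact Finset.prod_congr rfl fun j _ => gw_eq (a i) (b j) (hxy i j)
  have hX : (∏ i, ww (a i)) * ((∏ i, ∏ j, if i = j then 1 else
        v2 (a i) (x i) (x j) * (-1) ^ nq (a i)) * ∏ i, ∏ j, cr (a i) (x i) (y j)) =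
      (∏ i : Fin m, sin (l : ℂ)) * (∏ i, sw (a i) (hrow (2 * sin l) x y) (x i)) *
        ∏ i, ((-1) ^ nq (a i)) ^ (m + 1) := by
    rw [← Finset.prod_mul_distrib, ← Finset.prod_mul_distrib, ← Finset.prod_mul_distrib,
      ← Finset.prod_mul_distrib]
    exact Finset.prod_congr rfl fun i _ => row_eq x y a i
  have hY : (∏ i, ww (b i)) * ((∏ i, ∏ j, if i = j then 1 else
        v2 (b i) (y i) (y j) * (-1) ^ nq (b i)) * ∏ i, ∏ j, cr (b i) (y i) (x j)) =
      (∏ i : Fin m, sin (l : ℂ)) * (∏ i, sw (b i) (hrow (2 * sin l) y x) (y i)) *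
        ∏ i, ((-1) ^ nq (b i)) ^ (m + 1) := by
    rw [← Finset.prod_mul_distrib, ← Finset.prod_mul_distrib, ← Finset.prod_mul_distrib,
      ← Finset.prod_mul_distrib]
    exact Finset.prod_congr rfl fun i _ => row_eq y x b i
  have hs : ∀ c : Fin m → SignType, ∏ i, ((-1 : ℂ) ^ nq (c i)) ^ (m + 1) =
      ((-1) ^ (∑ i, NUP1.nq (c i))) ^ (m + 1) := by
    intro c
    rw [Finset.prod_pow, Finset.prod_pow_eq_pow_sum]
    simp only [NUP1.Mu.nq_eq]
  rw [hs] at hX hY
  have hsta : ∀ (u v : Fin m → ℂ) (c : Fin m → SignType) (s : ℂ → ℂ),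
      NUP1.sta u (fun w => hrow (2 * sin l) u v w * s w) c =
        (∏ i, sw (c i) (hrow (2 * sin l) u v) (u i)) * (∏ i, ((qn (c i) (u i)).map s).prod) *
          P (fun i j => pr (c i) (c j) (u i) (u j)) := by
    intro u v c s
    unfold NUP1.sta
    rw [← Finset.prod_mul_distrib]
    congr 1
    · refine Finset.prod_congr rfl fun i _ => ?_
      rw [NUP1.sw_mul, NUP1.Mu.qn_eq, NUP1.Mu.sw_eq]
    · congr 1
      funext i j
      rw [NUP1.Mu.pr_eq]
  have hcrq : NUP1.crq x y a b = ∏ i, ∏ j, QG (a i) (b j) (x i) (y j) := by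
    unfold NUP1.crq QG
    simp only [NUP1.Mu.qn_eq]
  unfold tg
  rw [P_eq_sq _ x a hx rfl, P_eq_sq _ y b hy rfl, hG, hsta, hsta, hcrq]
  unfold preG
  simp only [Finset.prod_mul_distrib]
  set A1 := ∏ i, ww (a i)
  set A2 := ∏ i, ww (b i)
  set FX := P fun i j => fw SignType.pos SignType.pos (x i - x j)
  set FY := P fun i j => fw SignType.pos SignType.pos (y i - y j)
  set PX := P fun i j => pr (a i) (a j) (x i) (x j)
  set PY := P fun i j => pr (b i) (b j) (y i) (y j)
  set GX := ∏ i, ∏ j, if i = j then 1 else v2 (a i) (x i) (x j) * (-1) ^ nq (a i)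
  set GY := ∏ i, ∏ j, if i = j then 1 else v2 (b i) (y i) (y j) * (-1) ^ nq (b i)
  set CX := ∏ i, ∏ j, cr (a i) (x i) (y j)
  set CY := ∏ i, ∏ j, cr (b i) (y i) (x j)
  set QP := ∏ i, ∏ j, QG (a i) (b j) (x i) (y j)
  set S0 := ∏ i : Fin m, sin (l : ℂ)
  set TX := ∏ i, sw (a i) (hrow (2 * sin l) x y) (x i)
  set TY := ∏ i, sw (b i) (hrow (2 * sin l) y x) (y i)
  set σX := ((-1 : ℂ) ^ (∑ i, NUP1.nq (a i))) ^ (m + 1)
  set σY := ((-1 : ℂ) ^ (∑ i, NUP1.nq (b i))) ^ (m + 1)
  set LX := ∏ i, R (x i)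
  set LY := ∏ i, T (y i)
  set QX := ∏ i, ((qn (a i) (x i)).map s).prod
  set QY := ∏ i, ((qn (b i) (y i)).map t).prod
  linear_combination FX * PX * FY * PY * QP * LX * LY * QX * QY * (A2 * (GY * CY)) * hX +
    FX * PX * FY * PY * QP * LX * LY * QX * QY * (S0 * TX * σX) * hY

theorem hrow_hr (m : ℕ) {m' M' : ℕ} (x : Fin m' → ℂ) (y : Fin M' → ℂ) (s : ℂ → ℂ) :
    (fun u => (-1) ^ (m + 1) * (hrow (2 * sin l) x y u * s u)) = fun u => hr (cn m) x y u * s u := by
  funext u
  have s1 : sin (l : ℂ) ≠ 0 := NUP1.Mu.sin1_ne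
  unfold NUP1.Mu.hrow NUP1.Leg.hr Pool.Agent.PB.cn
  have e2 : ∏ j, (sin (u - x j - 2 * (l : ℂ)))⁻¹ = ∏ i, 1 / sin (u - x i - 2 * l) :=
    Finset.prod_congr rfl fun i _ => (one_div _).symm
  rw [e2]
  have e3 : -2 * sin (2 * (l : ℂ)) / (2 * sin l) = -(sin (2 * l) / sin l) := by
    field_simp
  rw [e3, pow_succ]
  ring

theorem sum4 {A B : Type*} [Fintype A] [Fintype B] (s t : Finset ℕ) (F : ℕ → ℕ → A → B → ℂ) :
    ∑ n ∈ s, ∑ n' ∈ t, ∑ a, ∑ b, F n n' a b = ∑ a, ∑ b, ∑ n ∈ s, ∑ n' ∈ t, F n n' a b := by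
  have h1 : ∀ n ∈ s, ∑ n' ∈ t, ∑ a, ∑ b, F n n' a b = ∑ a, ∑ b, ∑ n' ∈ t, F n n' a b := by
    intro n _
    rw [Finset.sum_comm]
    exact Finset.sum_congr rfl fun a _ => Finset.sum_comm
  rw [Finset.sum_congr rfl h1, Finset.sum_comm]
  exact Finset.sum_congr rfl fun a _ => Finset.sum_comm

/-- **a charged state sum in terms of quanta** -/
theorem SG_qn {m : ℕ} {x y : Fin m → ℂ} (hx : ∀ i j, i ≠ j → Gn (x i - x j))
    (hy : ∀ i j, i ≠ j → Gn (y i - y j)) (hxy : ∀ i j, Gc (x i - y j)) (R T s t : ℂ → ℂ) (Q : ℤ) :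
    SG (fun a u => ww a * (R u * ((qn a u).map s).prod)) (fun b v => ww b * (T v * ((qn b v).map t).prod))
      Q x y = preG R x * preG T y *
      ∑ n ∈ Finset.range (2 * m + 1), ∑ n' ∈ Finset.range (2 * m + 1),
        if (n' : ℤ) = n + Q then ∑ a ∈ St m n, ∑ b ∈ St m n',
          sta x (fun u => hr (cn m) x y u * s u) a * sta y (fun u => hr (cn m) y x u * t u) b *
            crq x y a b else 0 := by
  have key : ∀ n n' : ℕ, preG R x * preG T y * (if (n' : ℤ) = n + Q then ∑ a ∈ St m n, ∑ b ∈ St m n',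
          sta x (fun u => hr (cn m) x y u * s u) a * sta y (fun u => hr (cn m) y x u * t u) b *
            crq x y a b else 0) =
      ∑ a : Fin m → SignType, ∑ b : Fin m → SignType,
        if (∑ i, NUP1.nq (a i) = n ∧ ∑ i, NUP1.nq (b i) = n') ∧ (n' : ℤ) = n + Q then
          tg (fun a u => ww a * (R u * ((qn a u).map s).prod))
            (fun b v => ww b * (T v * ((qn b v).map t).prod)) x y a b else 0 := by
    intro n n'
    by_cases hQ : (n' : ℤ) = n + Q
    · rw [if_pos hQ]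
      unfold NUP1.St
      rw [Finset.sum_filter, Finset.mul_sum]
      refine Finset.sum_congr rfl fun a _ => ?_
      split_ifs with ha
      · rw [Finset.sum_filter, Finset.mul_sum]
        refine Finset.sum_congr rfl fun b _ => ?_
        split_ifs with hb h h
        · rw [tg_eq hx hy hxy, ← hrow_hr m x y s, ← hrow_hr m y x t, sta_scale, sta_scale, ha, hb]
          have e1 : ((-1 : ℂ) ^ (m + 1)) ^ n = ((-1) ^ n) ^ (m + 1) := by
            rw [← pow_mul, ← pow_mul, mul_comm]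
          have e2 : ((-1 : ℂ) ^ (m + 1)) ^ n' = ((-1) ^ n') ^ (m + 1) := by
            rw [← pow_mul, ← pow_mul, mul_comm]
          rw [e1, e2]
          ring
        · exact absurd ⟨⟨ha, hb⟩, hQ⟩ h
        · exact absurd h.1.2 hb
        · ring
      · rw [mul_zero]
        symm
        refine Finset.sum_eq_zero fun b _ => ?_
        rw [if_neg fun h => ha h.1.1]
    · rw [if_neg hQ, mul_zero]
      symm
      refine Finset.sum_eq_zero fun a _ => Finset.sum_eq_zero fun b _ => ?_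
      rw [if_neg fun h => hQ h.2]
  rw [Finset.mul_sum]
  simp only [Finset.mul_sum _ _ (preG R x * preG T y), key]
  have hle : ∀ a : Fin m → SignType, ∑ i, NUP1.nq (a i) ∈ Finset.range (2 * m + 1) := by
    intro a
    have h2 : ∀ s : SignType, NUP1.nq s ≤ 2 := by decide
    have h3 := Finset.sum_le_card_nsmul Finset.univ (fun i => NUP1.nq (a i)) 2 (fun i _ => h2 _)
    have h4 : ∑ i, NUP1.nq (a i) ≤ 2 * m := by simpa [mul_comm] using h3
    exact Finset.mem_range.2 (by omega)
  unfold SG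
  rw [sum4]
  refine Finset.sum_congr rfl fun a _ => Finset.sum_congr rfl fun b _ => ?_
  rw [Finset.sum_eq_single_of_mem _ (hle a), Finset.sum_eq_single_of_mem _ (hle b)]
  · refine if_congr ?_ rfl rfl
    have h1 := NUP1.Mu.sum_nq a
    have h2 := NUP1.Mu.sum_nq b
    simp only [NUP1.Mu.nq_eq] at h1 h2
    constructor
    · intro h
      refine ⟨⟨rfl, rfl⟩, ?_⟩
      rw [h1, h2]
      linarith
    · rintro ⟨-, h⟩
      rw [h1, h2] at h
      linarith
  · intro n' _ hn'
    rw [if_neg fun h => hn' h.1.2.symm]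
  · intro n _ hn
    refine Finset.sum_eq_zero fun n' _ => ?_
    rw [if_neg fun h => hn h.1.1.symm]

end RX

end
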