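import Pool.Agent.PB.SSum
import Pool.Agent.PB.NHat

/-!
# FAR: the state sum with spectators and a charge (nu34/ISO_FAR)

* `SG LX LY Q x y`: rows `x`, `y` of the two groups, weight `LX (a i) (x i)` of a row in the state `a i`,
  charge `Σ a - Σ b = Q`;
* `SS_eq_SG`; `SG_cons` (one row more in both groups: nine terms, no hypothesis), `SG_perm`, `SG_swap`,
  `SG_neg`;
* `NX`, `PN_cons`: the normaliser of one more row.
-/

set_option autoImplicit false
set_option linter.unusedSectionVars false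
set_option linter.unusedSimpArgs false

noncomputable section

open Complex

namespace RX

open NUP1 (l)
open NUP1.Grand (P)
open NUP1.Mu (P_cons P_congr P_mul qn nq)
open PBS (SS tm fw gw Lw ww sum_cons P_perm fw_neg gw_neg fw_flip gw_flip PN)
open PBR (rh rh_neg)

/-- one term -/
def tg (LX LY : SignType → ℂ → ℂ) {m M : ℕ} (x : Fin m → ℂ) (y : Fin M → ℂ) (a : Fin m → SignType)
    (b : Fin M → SignType) : ℂ :=
  ((∏ i, LX (a i) (x i)) * P (fun i j => fw (a i) (a j) (x i - x j))) *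
    ((∏ j, LY (b j) (y j)) * P (fun i j => fw (b i) (b j) (y i - y j))) *
      ∏ i, ∏ j, gw (a i) (b j) (x i - y j)

/-- **the state sum with spectators `LX`, `LY` and the charge `Q`** -/
def SG (LX LY : SignType → ℂ → ℂ) (Q : ℤ) {m M : ℕ} (x : Fin m → ℂ) (y : Fin M → ℂ) : ℂ :=
  ∑ a : Fin m → SignType, ∑ b : Fin M → SignType,
    if ∑ i, (a i : ℤ) = ∑ j, (b j : ℤ) + Q then tg LX LY x y a b else 0

/-- the legs as a spectator -/
def LL (z : ℂ) (a : SignType) (u : ℂ) : ℂ := ww a * Lw a (z - u)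

theorem tm_eq_tg (z : ℂ) {m M : ℕ} (x : Fin m → ℂ) (y : Fin M → ℂ) (a : Fin m → SignType)
    (b : Fin M → SignType) : tm z x y a b = tg (LL z) (LL z) x y a b := rfl

theorem SS_eq_SG (z : ℂ) {m M : ℕ} (x : Fin m → ℂ) (y : Fin M → ℂ) :
    SS z x y = sin l * SG (LL z) (LL z) 0 x y := by
  unfold PBS.SS SG
  simp only [add_zero]
  rfl

/-- the spectator of the rows `x` after the row `x0` (state `e`) of the group and the row `y0` (state `f`)
of the other group -/
def sx (L : SignType → ℂ → ℂ) (e f : SignType) (x0 y0 : ℂ) (a : SignType) (u : ℂ) : ℂ :=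
  L a u * (fw e a (x0 - u) * gw a f (u - y0))

/-- the same for the other group (`e` at `x0` in the first group, `f` at `y0` in the second) -/
def sy (L : SignType → ℂ → ℂ) (e f : SignType) (x0 y0 : ℂ) (b : SignType) (v : ℂ) : ℂ :=
  L b v * (fw f b (y0 - v) * gw e b (x0 - v))

/-- `sy` is `sx` with the groups exchanged -/
theorem sy_eq (L : SignType → ℂ → ℂ) (e f : SignType) (x0 y0 : ℂ) : sy L e f x0 y0 = sx L f e y0 x0 := by
  funext b v
  unfold sy sx
  rw [← gw_neg e b (v - x0), neg_sub]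

theorem tg_cons (LX LY : SignType → ℂ → ℂ) {m M : ℕ} (x0 y0 : ℂ) (x : Fin m → ℂ) (y : Fin M → ℂ)
    (e f : SignType) (a : Fin m → SignType) (b : Fin M → SignType) :
    tg LX LY (Fin.cons x0 x : Fin (m + 1) → ℂ) (Fin.cons y0 y : Fin (M + 1) → ℂ)
      (Fin.cons e a : Fin (m + 1) → SignType) (Fin.cons f b : Fin (M + 1) → SignType) =
    (LX e x0 * LY f y0 * gw e f (x0 - y0)) * tg (sx LX e f x0 y0) (sy LY e f x0 y0) x y a b := by
  unfold tg sx sy
  rw [Fin.prod_univ_succ (n := m), Fin.prod_univ_succ (n := M), P_cons (n := m), P_cons (n := M),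
    Fin.prod_univ_succ (n := m)]
  simp only [Fin.cons_zero, Fin.cons_succ]
  simp_rw [Fin.prod_univ_succ (n := M)]
  simp only [Fin.cons_zero, Fin.cons_succ, Finset.prod_mul_distrib]
  ring

theorem SG_cons (LX LY : SignType → ℂ → ℂ) (Q : ℤ) {m M : ℕ} (x0 y0 : ℂ) (x : Fin m → ℂ)
    (y : Fin M → ℂ) :
    SG LX LY Q (Fin.cons x0 x : Fin (m + 1) → ℂ) (Fin.cons y0 y : Fin (M + 1) → ℂ) =
      ∑ e : SignType, ∑ f : SignType, (LX e x0 * LY f y0 * gw e f (x0 - y0)) *
        SG (sx LX e f x0 y0) (sy LY e f x0 y0) (Q - (e : ℤ) + (f : ℤ)) x y := by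
  unfold SG
  rw [sum_cons]
  refine Finset.sum_congr rfl fun e _ => ?_
  have h : ∀ a : Fin m → SignType, ∑ b : Fin (M + 1) → SignType,
      (if ∑ i, ((Fin.cons e a : Fin (m + 1) → SignType) i : ℤ) = ∑ j, (b j : ℤ) + Q then
        tg LX LY (Fin.cons x0 x : Fin (m + 1) → ℂ) (Fin.cons y0 y : Fin (M + 1) → ℂ)
          (Fin.cons e a : Fin (m + 1) → SignType) b else 0) =
      ∑ f : SignType, ∑ b : Fin M → SignType, (LX e x0 * LY f y0 * gw e f (x0 - y0)) *
        (if ∑ i, (a i : ℤ) = ∑ j, (b j : ℤ) + (Q - (e : ℤ) + (f : ℤ)) then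
          tg (sx LX e f x0 y0) (sy LY e f x0 y0) x y a b else 0) := by
    intro a
    rw [sum_cons]
    refine Finset.sum_congr rfl fun f _ => Finset.sum_congr rfl fun b _ => ?_
    rw [tg_cons, mul_ite, mul_zero]
    refine if_congr ?_ rfl rfl
    rw [Fin.sum_univ_succ, Fin.sum_univ_succ]
    simp only [Fin.cons_zero, Fin.cons_succ]
    constructor <;> intro h <;> linarith
  simp only [h]
  rw [Finset.sum_comm]
  refine Finset.sum_congr rfl fun f _ => ?_
  rw [Finset.mul_sum]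
  exact Finset.sum_congr rfl fun a _ => (Finset.mul_sum _ _ _).symm

theorem SG_congr {LX LX' LY LY' : SignType → ℂ → ℂ} (Q : ℤ) {m M : ℕ} {x : Fin m → ℂ} {y : Fin M → ℂ}
    (hX : ∀ a i, LX a (x i) = LX' a (x i)) (hY : ∀ b j, LY b (y j) = LY' b (y j)) :
    SG LX LY Q x y = SG LX' LY' Q x y := by
  unfold SG tg
  simp only [hX, hY]

/-- a factor of every row that does not depend on the state -/
theorem SG_mul (LX LY : SignType → ℂ → ℂ) (R T : ℂ → ℂ) (Q : ℤ) {m M : ℕ} (x : Fin m → ℂ)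
    (y : Fin M → ℂ) :
    SG (fun a u => R u * LX a u) (fun b v => T v * LY b v) Q x y =
      ((∏ i, R (x i)) * ∏ j, T (y j)) * SG LX LY Q x y := by
  unfold SG
  rw [Finset.mul_sum]
  refine Finset.sum_congr rfl fun a _ => ?_
  rw [Finset.mul_sum]
  refine Finset.sum_congr rfl fun b _ => ?_
  rw [mul_ite, mul_zero]
  refine if_congr Iff.rfl ?_ rfl
  unfold tg
  simp only [Finset.prod_mul_distrib]
  ring

/-- the order of the rows is irrelevant -/
theorem SG_perm (LX LY : SignType → ℂ → ℂ) (Q : ℤ) {m M : ℕ} (x : Fin m → ℂ) (y : Fin M → ℂ)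
    (σ : Equiv.Perm (Fin m)) (τ : Equiv.Perm (Fin M)) : SG LX LY Q (x ∘ σ) (y ∘ τ) = SG LX LY Q x y := by
  unfold SG
  refine (Equiv.sum_comp (σ.symm.arrowCongr (Equiv.refl SignType)) _).symm.trans ?_
  refine Finset.sum_congr rfl fun a _ => ?_
  refine (Equiv.sum_comp (τ.symm.arrowCongr (Equiv.refl SignType)) _).symm.trans ?_
  refine Finset.sum_congr rfl fun b _ => ?_
  have ea : (σ.symm.arrowCongr (Equiv.refl SignType)) a = a ∘ σ := by
    funext i
    rfl
  have eb : (τ.symm.arrowCongr (Equiv.refl SignType)) b = b ∘ τ := by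
    funext i
    rfl
  rw [ea, eb]
  have ht : tg LX LY (x ∘ σ) (y ∘ τ) (a ∘ σ) (b ∘ τ) = tg LX LY x y a b := by
    unfold tg
    simp only [Function.comp_apply]
    have e : ∀ (c d : SignType) (u v : ℂ), fw c d (u - v) = fw d c (v - u) := fun c d u v => by
      rw [← fw_neg, neg_sub]
    have h1 : P (fun i j => fw (a (σ i)) (a (σ j)) (x (σ i) - x (σ j))) =
        P (fun i j => fw (a i) (a j) (x i - x j)) :=
      P_perm (F := fun i j => fw (a i) (a j) (x i - x j)) (fun i j => e _ _ _ _) σ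
    have h2 : P (fun i j => fw (b (τ i)) (b (τ j)) (y (τ i) - y (τ j))) =
        P (fun i j => fw (b i) (b j) (y i - y j)) :=
      P_perm (F := fun i j => fw (b i) (b j) (y i - y j)) (fun i j => e _ _ _ _) τ
    have h3 : ∏ i, ∏ j, gw (a i) (b (τ j)) (x i - y (τ j)) = ∏ i, ∏ j, gw (a i) (b j) (x i - y j) :=
      Finset.prod_congr rfl fun i _ => Equiv.prod_comp τ (fun j => gw (a i) (b j) (x i - y j))
    rw [h1, h2, Equiv.prod_comp σ (fun i => LX (a i) (x i)),
      Equiv.prod_comp τ (fun i => LY (b i) (y i)),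
      Equiv.prod_comp σ (fun i => ∏ j, gw (a i) (b (τ j)) (x i - y (τ j))), h3]
  rw [ht]
  simp only [Function.comp_apply]
  rw [Equiv.sum_comp σ (fun i => (a i : ℤ)), Equiv.sum_comp τ (fun i => (b i : ℤ))]

/-- the groups exchanged -/
theorem SG_swap (LX LY : SignType → ℂ → ℂ) (Q : ℤ) {m M : ℕ} (x : Fin m → ℂ) (y : Fin M → ℂ) :
    SG LX LY Q x y = SG LY LX (-Q) y x := by
  unfold SG
  rw [Finset.sum_comm]
  refine Finset.sum_congr rfl fun b _ => Finset.sum_congr rfl fun a _ => ?_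
  refine if_congr ⟨fun h => by linarith, fun h => by linarith⟩ ?_ rfl
  unfold tg
  have e : ∏ i, ∏ j, gw (a i) (b j) (x i - y j) = ∏ j, ∏ i, gw (b j) (a i) (y j - x i) := by
    rw [Finset.prod_comm]
    refine Finset.prod_congr rfl fun i _ => Finset.prod_congr rfl fun j _ => ?_
    rw [← gw_neg, neg_sub]
  rw [e]
  ring

/-- reflection -/
theorem SG_neg (LX LY : SignType → ℂ → ℂ) (Q : ℤ) {m M : ℕ} (x : Fin m → ℂ) (y : Fin M → ℂ) :
    SG (fun a u => LX (-a) (-u)) (fun b v => LY (-b) (-v)) (-Q) (-x) (-y) = SG LX LY Q x y := by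
  unfold SG
  refine (Equiv.sum_comp (Equiv.neg (Fin m → SignType)) _).symm.trans ?_
  refine Finset.sum_congr rfl fun a _ => ?_
  refine (Equiv.sum_comp (Equiv.neg (Fin M → SignType)) _).symm.trans ?_
  refine Finset.sum_congr rfl fun b _ => ?_
  have h : ∀ s : SignType, ((-s : SignType) : ℤ) = -(s : ℤ) := by decide
  have e : ∀ u v : ℂ, -u - -v = -(u - v) := fun u v => by ring
  simp only [Equiv.neg_apply, Pi.neg_apply, h, Finset.sum_neg_distrib]
  refine if_congr ⟨fun h => by linarith, fun h => by linarith⟩ ?_ rfl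
  unfold tg
  simp only [Pi.neg_apply, neg_neg, e, fw_flip, gw_flip]

/-! ## the normaliser of one more row -/

/-- the normaliser of the row `x` over the rows `mu` in both groups -/
def NX (z x : ℂ) {m : ℕ} (mu : Fin m → ℂ) : ℂ :=
  4 / 9 * rh 0 ^ 2 * rh (z - x) ^ 4 * ∏ i, rh (x - mu i) ^ 8

theorem PN_cons (z x : ℂ) {m : ℕ} (mu : Fin m → ℂ) :
    PN z (Fin.cons x mu : Fin (m + 1) → ℂ) (Fin.cons x mu : Fin (m + 1) → ℂ) = NX z x mu * PN z mu mu := by
  unfold PBS.PN NX
  rw [Fin.prod_univ_succ (n := m), P_cons (n := m), Fin.prod_univ_succ (n := m)]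
  simp only [Fin.cons_zero, Fin.cons_succ]
  simp_rw [Fin.prod_univ_succ (n := m)]
  simp only [Fin.cons_zero, Fin.cons_succ, Finset.prod_mul_distrib, sub_self]
  have hC : ∏ i, rh (mu i - x) ^ 2 = ∏ i, rh (x - mu i) ^ 2 :=
    Finset.prod_congr rfl fun i _ => by rw [PBS.rh_sub]
  have h8 : ∏ i, rh (x - mu i) ^ 8 = (∏ i, rh (x - mu i) ^ 2) ^ 4 := by
    rw [← Finset.prod_pow]
    exact Finset.prod_congr rfl fun i _ => by ring
  rw [hC, h8, show m + 1 + (m + 1) + 1 = (m + m + 1) + 2 by ring, pow_add (2 / 3 : ℂ) (m + m + 1) 2]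
  ring

end RX

end
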