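import Pool.Agent.RX.Cons
import Pool.Agent.PB.NHat

/-!
# FAR: a far row on the right, generic rows (nu34/ISO_FAR, R1)

* `kE e f w`: the factor of a row of the content, `w = x0 - mu i`; `k0 z e f x0`: the factor of the legs;
* `sE z e f x0`: the spectator of the quanta of the first group (`sE z f e x0` for the second);
* **`nh_far`**: `nh z (x0, mu) (x0, mu)` = sum over the nine states of the far row.
-/

set_option autoImplicit false
set_option linter.unusedSectionVars false
set_option linter.unusedSimpArgs false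

noncomputable section

open Complex

namespace RX

open NUP1 (l q rho St sta crq)
open NUP1.Grand (P)
open NUP1.Mu (Gn Gc nq qn P_mul P_congr)
open NUP1.Leg (hr)
open PBS (SS PN nh fw gw Lw ww fw_neg gw_neg Th Lw_eq)
open PBR (rh rh_neg)
open Pool.Agent.PB (cn Pf Nu D1 D2 Lp Fp)

/-- the charge of the rest -/
def QE (e f : SignType) : ℤ := (f : ℤ) - (e : ℤ)

/-- the factor of a row of the content -/
def kE (e f : SignType) (w : ℂ) : ℂ :=
  fw e .pos w * fw f .pos w * (gw .pos f (-w) * gw .pos e (-w)) / rh w ^ 8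

/-- the factor of the legs and of the row itself -/
def k0 (z : ℂ) (e f : SignType) (x0 : ℂ) : ℂ :=
  LL z e x0 * LL z f x0 * gw e f 0 / (4 / 9 * rh 0 ^ 2 * rh (z - x0) ^ 4)

/-- the spectator of the quanta of the first group -/
def sE (z : ℂ) (e f : SignType) (x0 u : ℂ) : ℂ := Th z u * (Wo e (u - x0) * Vo f (u - x0))

/-- the sum over the numbers of quanta with the difference `Q` -/
def sumQ (m : ℕ) (Q : ℤ) (F : ℕ → ℕ → ℂ) : ℂ :=
  ∑ n ∈ Finset.range (2 * m + 1), ∑ n' ∈ Finset.range (2 * m + 1), if (n' : ℤ) = n + Q then F n n' else 0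

/-- the spectator of the rows in terms of quanta -/
theorem sx_qn (e f : SignType) {z x0 y0 u : ℂ} (a : SignType) (hx : Fr (x0 - u)) (hy : Fr (y0 - u))
    (h2 : sin (z - u + 2 * l) ≠ 0) (h3 : sin (z - u + 3 * l) ≠ 0) :
    sx (LL z) e f x0 y0 a u = ww a * ((Lw .pos (z - u) * (fw e .pos (x0 - u) * gw .pos f (u - y0))) *
      ((qn a u).map fun w => Th z w * (Wo e (w - x0) * Vo f (w - y0))).prod) := by
  unfold sx LL
  rw [Lw_eq a h2 h3, fw_qn e a hx, gw_qn a f hy]
  have h : ∀ L : List ℂ, (L.map fun w => Th z w * (Wo e (w - x0) * Vo f (w - y0))).prod =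
      (L.map (Th z)).prod * ((L.map fun w => Wo e (w - x0)).prod * (L.map fun w => Vo f (w - y0)).prod) := by
    intro L
    induction L with
    | nil => simp
    | cons a L ih =>
      simp only [List.map_cons, List.prod_cons, ih]
      ring
  rw [h]
  ring

/-- **the nine states of a far row**, generic rows -/
theorem nh_far {z x0 : ℂ} {m : ℕ} {mu : Fin m → ℂ} (hmu : ∀ i j, i ≠ j → Gn (mu i - mu j))
    (hc : ∀ i j, Gc (mu i - mu j)) (hz : ∀ i, sin (z - mu i + 2 * l) ≠ 0 ∧ sin (z - mu i + 3 * l) ≠ 0)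
    (hf : ∀ i, Fr (x0 - mu i)) :
    nh z (Fin.cons x0 mu : Fin (m + 1) → ℂ) (Fin.cons x0 mu : Fin (m + 1) → ℂ) =
      ∑ e : SignType, ∑ f : SignType, Pf z mu mu * (k0 z e f x0 * ∏ i, kE e f (x0 - mu i)) *
        sumQ m (QE e f) fun n n' => ∑ a ∈ St m n, ∑ b ∈ St m n',
          sta mu (fun u => hr (cn m) mu mu u * sE z e f x0 u) a *
            sta mu (fun u => hr (cn m) mu mu u * sE z f e x0 u) b * crq mu mu a b := by
  unfold PBS.nh
  rw [PN_cons, SS_eq_SG, SG_cons, Finset.mul_sum, Finset.sum_div]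
  refine Finset.sum_congr rfl fun e _ => ?_
  rw [Finset.mul_sum, Finset.sum_div]
  refine Finset.sum_congr rfl fun f _ => ?_
  rw [sub_self, sy_eq]
  have h1 : ∀ e f : SignType, ∀ (a : SignType) (i : Fin m), sx (LL z) e f x0 x0 a (mu i) =
      ww a * ((Lw .pos (z - mu i) * (fw e .pos (x0 - mu i) * gw .pos f (mu i - x0))) *
      ((qn a (mu i)).map (sE z e f x0)).prod) := fun e f a i =>
    sx_qn e f a (hf i) (hf i) (hz i).1 (hz i).2
  rw [SG_congr (LX' := fun a u => ww a * ((Lw .pos (z - u) * (fw e .pos (x0 - u) * gw .pos f (u - x0))) *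
      ((qn a u).map (sE z e f x0)).prod))
    (LY' := fun a u => ww a * ((Lw .pos (z - u) * (fw f .pos (x0 - u) * gw .pos e (u - x0))) *
      ((qn a u).map (sE z f e x0)).prod)) _ (h1 e f) (h1 f e), SG_qn hmu hmu hc
    (fun u => Lw .pos (z - u) * (fw e .pos (x0 - u) * gw .pos f (u - x0)))
    (fun u => Lw .pos (z - u) * (fw f .pos (x0 - u) * gw .pos e (u - x0))) (sE z e f x0) (sE z f e x0)]
  have hQ : (0 : ℤ) - (e : ℤ) + (f : ℤ) = QE e f := by
    unfold QE
    ring
  rw [hQ]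
  have hp : ∀ g h : SignType, preG (fun u => Lw .pos (z - u) * (fw g .pos (x0 - u) * gw .pos h (u - x0))) mu =
      PBS.pre z mu * ∏ i, (fw g .pos (x0 - mu i) * gw .pos h (mu i - x0)) := by
    intro g h
    unfold preG PBS.pre
    simp only [Finset.prod_mul_distrib]
    ring
  rw [hp, hp, Pool.Agent.PB.pre_Nu, Pool.Agent.PB.PN_D]
  unfold NX k0 Pool.Agent.PB.Pf
  have hk : ∏ i, kE e f (x0 - mu i) = (∏ i, (fw e .pos (x0 - mu i) * gw .pos f (mu i - x0))) *
      (∏ i, (fw f .pos (x0 - mu i) * gw .pos e (mu i - x0))) / ∏ i, rh (x0 - mu i) ^ 8 := by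
    rw [← Finset.prod_mul_distrib, ← Finset.prod_div_distrib]
    refine Finset.prod_congr rfl fun i _ => ?_
    unfold kE
    rw [neg_sub]
    ring
  rw [hk]
  have h23 : ((2 : ℂ) / 3) ^ (m + m + 1) ≠ 0 := pow_ne_zero _ (by norm_num)
  have h32 : ((3 : ℂ) / 2) ^ (m + m + 1) = 1 / (2 / 3) ^ (m + m + 1) := by
    rw [eq_div_iff h23, ← mul_pow]
    norm_num
  rw [h32]
  unfold sumQ
  generalize (∑ n ∈ Finset.range (2 * m + 1), ∑ n' ∈ Finset.range (2 * m + 1),
    if (n' : ℤ) = n + QE e f then ∑ a ∈ St m n, ∑ b ∈ St m n',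
          sta mu (fun u => hr (cn m) mu mu u * sE z e f x0 u) a *
            sta mu (fun u => hr (cn m) mu mu u * sE z f e x0 u) b * crq mu mu a b else 0) = S
  generalize ∏ i, (fw e .pos (x0 - mu i) * gw .pos f (mu i - x0)) = p1
  generalize ∏ i, (fw f .pos (x0 - mu i) * gw .pos e (mu i - x0)) = p2
  generalize ∏ i, rh (x0 - mu i) ^ 8 = p3
  ring

end RX

end
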