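import Pool.Agent.PB.NzE

/-!
# The minus row (definitions; helper66, for ISO_FAR)

`Jp z mu y` : the content `mu` (both groups) without the row `y`, legs at `z`: the quanta carry the
factor `sin (u - y) sin (u - y - 2 l) / sin (u - y + 3 l) ^ 2` of the removed row.
-/

set_option autoImplicit false

noncomputable section

open Complex

namespace Pool.Agent.RX

open NUP1 (l)
open Pool.Agent.PB (Pf Lp Fp cn)
open PBR (rh)

variable {m : ℕ}

/-- factor of a quantum `u` with the two legs at `z` and the removed row `y` -/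
def sJ (z y u : ℂ) : ℂ :=
  PBX.Lg z z u * (sin (u - y) * sin (u - y - 2 * l) / sin (u - y + 3 * l) ^ 2)

/-- the prefactor of the removed row, relative to the content -/
def PJ (z : ℂ) (mu : Fin m → ℂ) (y : ℂ) : ℂ :=
  9 / 4 * sin l ^ 2 / rh 0 ^ 2 * (rh (z - y) ^ 4 / Lp z y ^ 2) *
    ∏ j, rh (y - mu j) ^ 8 / Fp (y - mu j) ^ 2

/-- **the content `mu` without the row `y`**, legs at `z` -/
def Jp (z : ℂ) (mu : Fin m → ℂ) (y : ℂ) : ℂ :=
  Pf z mu mu * PJ z mu y *
    ∑ n ∈ Finset.range (2 * m + 1), PBX.DZ (-cn m) (-cn m) (sJ z y) (sJ z y) mu mu n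

/-- the mirror image of `Jp` -/
def Jm (z : ℂ) (mu : Fin m → ℂ) (y : ℂ) : ℂ := Jp (-z) (-mu) (-y)

end Pool.Agent.RX

end
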