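import Mathlib

/-!
# Trigonometric polynomials counted in sines (ISO, cell FAR, row R2)

* `TS D f`: `f x * e^{i D x}` is a polynomial of degree `≤ D` in `e^{2 i x}` (a product of `D` sines
  is of this kind); closure under sums, products, sines, `D ↦ D + 2`;
* `TS.div`: simple zeros can be divided out;
* `TS.eq_of_nodes`, `TS.lagrange`: Lagrange interpolation at `D + 1` nodes;
* **`TS.lim`**: trigonometric polynomials of bounded degree which converge at `D + 1` nodes converge
  everywhere, locally uniformly.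
-/

set_option autoImplicit false

noncomputable section

open Complex Finset Polynomial Filter Topology

namespace RX

/-- a trigonometric polynomial with `D` sines -/
def TS (D : ℕ) (f : ℂ → ℂ) : Prop :=
  ∃ P : Polynomial ℂ, P.natDegree ≤ D ∧
    ∀ x, f x * cexp (D * (I * x)) = P.eval (cexp (2 * (I * x)))

namespace TS

variable {D D' : ℕ} {f g : ℂ → ℂ}

theorem congr (h : TS D f) (e : ∀ x, g x = f x) : TS D g := by
  obtain ⟨P, hP, hf⟩ := h
  exact ⟨P, hP, fun x => by rw [e x, hf x]⟩

theorem const (c : ℂ) : TS 0 fun _ => c := ⟨C c, by simp, fun x => by simp⟩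

theorem mul (h : TS D f) (h' : TS D' g) : TS (D + D') fun x => f x * g x := by
  obtain ⟨P, hP, e⟩ := h
  obtain ⟨Q, hQ, e'⟩ := h'
  refine ⟨P * Q, (natDegree_mul_le).trans (by omega), fun x => ?_⟩
  have h1 : cexp (((D + D' : ℕ) : ℂ) * (I * x)) = cexp (D * (I * x)) * cexp (D' * (I * x)) := by
    rw [← Complex.exp_add]
    congr 1
    push_cast
    ring
  show f x * g x * _ = _
  rw [eval_mul, ← e x, ← e' x, h1]
  ring

theorem add (h : TS D f) (h' : TS D g) : TS D fun x => f x + g x := by
  obtain ⟨P, hP, e⟩ := h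
  obtain ⟨Q, hQ, e'⟩ := h'
  refine ⟨P + Q, (natDegree_add_le _ _).trans (max_le hP hQ), fun x => ?_⟩
  show (f x + g x) * _ = _
  rw [eval_add, ← e x, ← e' x]
  ring

theorem cmul (c : ℂ) (h : TS D f) : TS D fun x => c * f x := by
  simpa using (const c).mul h

theorem mulc (h : TS D f) (c : ℂ) : TS D fun x => f x * c := by
  simpa using h.mul (const c)

theorem neg (h : TS D f) : TS D fun x => -f x := by
  simpa using h.cmul (-1)

theorem sub (h : TS D f) (h' : TS D g) : TS D fun x => f x - g x := by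
  simpa [sub_eq_add_neg] using h.add h'.neg

theorem two (h : TS D f) : TS (D + 2) f := by
  obtain ⟨P, hP, e⟩ := h
  refine ⟨X * P, (natDegree_mul_le).trans ?_, fun x => ?_⟩
  · have := natDegree_X_le (R := ℂ)
    omega
  · have h1 : cexp (((D + 2 : ℕ) : ℂ) * (I * x)) = cexp (D * (I * x)) * cexp (2 * (I * x)) := by
      rw [← Complex.exp_add]
      congr 1
      push_cast
      ring
    rw [eval_mul, eval_X, ← e x, h1]
    ring

theorem mono (h : TS D f) (k : ℕ) : TS (D + 2 * k) f := by
  induction k with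
  | zero => exact h
  | succ k ih => exact ih.two

theorem mono' (h : TS D f) {k : ℕ} (e : D' = D + 2 * k) : TS D' f := e ▸ h.mono k

theorem cast (h : TS D f) (e : D' = D) : TS D' f := e ▸ h

theorem zero' (D : ℕ) : TS D fun _ => 0 := ⟨0, by simp, fun x => by simp⟩

theorem sum {ι : Type*} (s : Finset ι) {F : ι → ℂ → ℂ} (h : ∀ i ∈ s, TS D (F i)) :
    TS D fun x => ∑ i ∈ s, F i x := by
  classical
  induction s using Finset.induction_on with
  | empty => simpa using zero' D
  | insert a s ha ih =>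
    refine ((h a (mem_insert_self _ _)).add (ih fun i hi => h i (mem_insert_of_mem hi))).congr
      fun x => ?_
    rw [sum_insert ha]

theorem prod {ι : Type*} (s : Finset ι) {d : ι → ℕ} {F : ι → ℂ → ℂ} (h : ∀ i ∈ s, TS (d i) (F i)) :
    TS (∑ i ∈ s, d i) fun x => ∏ i ∈ s, F i x := by
  classical
  induction s using Finset.induction_on with
  | empty => simpa using const 1
  | insert a s ha ih =>
    rw [sum_insert ha]
    refine ((h a (mem_insert_self _ _)).mul (ih fun i hi => h i (mem_insert_of_mem hi))).congr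
      fun x => ?_
    rw [prod_insert ha]

theorem sin_eq (x c : ℂ) : Complex.sin (x - c) * (2 * I * cexp (I * c) * cexp (I * x)) =
    cexp (2 * (I * x)) - cexp (2 * (I * c)) := by
  have h1 : cexp (-(x - c) * I) * (cexp (I * c) * cexp (I * x)) = cexp (2 * (I * c)) := by
    rw [← Complex.exp_add, ← Complex.exp_add]
    congr 1
    ring
  have h2 : cexp ((x - c) * I) * (cexp (I * c) * cexp (I * x)) = cexp (2 * (I * x)) := by
    rw [← Complex.exp_add, ← Complex.exp_add]
    congr 1
    ring
  rw [Complex.sin]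
  linear_combination I * I * h1 - I * I * h2 + (cexp (2 * (I * c)) - cexp (2 * (I * x))) * I_mul_I

theorem sin_sub (c : ℂ) : TS 1 fun x => Complex.sin (x - c) := by
  refine ⟨C ((2 * I * cexp (I * c))⁻¹) * (X - C (cexp (2 * (I * c)))), ?_, fun x => ?_⟩
  · refine (natDegree_C_mul_le _ _).trans ?_
    exact (natDegree_X_sub_C _).le
  · rw [eval_mul, eval_C, eval_sub, eval_X, eval_C, ← sin_eq]
    have hne : 2 * I * cexp (I * c) ≠ 0 :=
      mul_ne_zero (mul_ne_zero two_ne_zero I_ne_zero) (Complex.exp_ne_zero _)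
    have e1 : (((1 : ℕ) : ℂ) * (I * x)) = I * x := by push_cast; ring
    rw [e1]
    field_simp

theorem sin_add (c : ℂ) : TS 1 fun x => Complex.sin (x + c) :=
  (sin_sub (-c)).congr fun x => by rw [sub_neg_eq_add]

/-- a zero can be divided out -/
theorem div1 {T : ℂ → ℂ} (h : TS (D + 1) T) {c : ℂ} (hc : T c = 0) :
    ∃ f, TS D f ∧ ∀ x, T x = f x * Complex.sin (x - c) := by
  obtain ⟨P, hP, e⟩ := h
  have hr : P.IsRoot (cexp (2 * (I * c))) := by
    rw [IsRoot.def, ← e c, hc, zero_mul]
  obtain ⟨Q, hQ⟩ := dvd_iff_isRoot.2 hr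
  have hQd : Q.natDegree ≤ D := by
    by_cases h0 : Q = 0
    · rw [h0]; simp
    · have h1 : P.natDegree = 1 + Q.natDegree := by
        rw [hQ, natDegree_mul (X_sub_C_ne_zero _) h0, natDegree_X_sub_C]
      omega
  refine ⟨fun x => 2 * I * cexp (I * c) * (Q.eval (cexp (2 * (I * x))) * cexp (-(D * (I * x)))),
    ⟨C (2 * I * cexp (I * c)) * Q, (natDegree_C_mul_le _ _).trans hQd, fun x => ?_⟩, fun x => ?_⟩
  · show 2 * I * cexp (I * c) * (Q.eval (cexp (2 * (I * x))) * cexp (-(D * (I * x)))) *
      cexp (D * (I * x)) = _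
    have h3 : cexp (-(D * (I * x))) * cexp (D * (I * x)) = 1 := by
      rw [← Complex.exp_add, neg_add_cancel, Complex.exp_zero]
    rw [eval_mul, eval_C]
    linear_combination (2 * I * cexp (I * c) * eval (cexp (2 * (I * x))) Q) * h3
  · have h1 := e x
    rw [hQ, eval_mul, eval_sub, eval_X, eval_C, ← sin_eq] at h1
    have h2 : cexp (((D + 1 : ℕ) : ℂ) * (I * x)) = cexp (D * (I * x)) * cexp (I * x) := by
      rw [← Complex.exp_add]
      congr 1
      push_cast
      ring
    rw [h2] at h1
    have h3 : cexp (D * (I * x)) ≠ 0 := Complex.exp_ne_zero _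
    have h4 : cexp (I * x) ≠ 0 := Complex.exp_ne_zero _
    have h5 : cexp (-(D * (I * x))) = (cexp (D * (I * x)))⁻¹ := Complex.exp_neg _
    refine mul_right_cancel₀ (mul_ne_zero h3 h4) ?_
    show _ = 2 * I * cexp (I * c) * (Q.eval (cexp (2 * (I * x))) * cexp (-(D * (I * x)))) *
      Complex.sin (x - c) * _
    rw [h1, h5]
    field_simp

/-- **simple zeros can be divided out** -/
theorem div {ι : Type*} (s : Finset ι) (c : ι → ℂ)
    (hs : ∀ i ∈ s, ∀ j ∈ s, i ≠ j → Complex.sin (c i - c j) ≠ 0) {T : ℂ → ℂ}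
    (h : TS (D + s.card) T) (hc : ∀ i ∈ s, T (c i) = 0) :
    ∃ f, TS D f ∧ ∀ x, T x = f x * ∏ i ∈ s, Complex.sin (x - c i) := by
  classical
  induction s using Finset.induction_on generalizing T with
  | empty => exact ⟨T, by simpa using h, fun x => by simp⟩
  | insert a s ha ih =>
    rw [card_insert_of_notMem ha, ← add_assoc] at h
    obtain ⟨g, hg, hgT⟩ := h.div1 (hc a (mem_insert_self _ _))
    obtain ⟨f, hf, hfg⟩ := ih (fun i hi j hj => hs i (mem_insert_of_mem hi) j (mem_insert_of_mem hj))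
      hg (fun i hi => by
        have h1 := hgT (c i)
        rw [hc i (mem_insert_of_mem hi)] at h1
        rcases mul_eq_zero.1 h1.symm with h2 | h2
        · exact h2
        · exact absurd h2 (hs i (mem_insert_of_mem hi) a (mem_insert_self _ _)
            (fun e => ha (e ▸ hi))))
    refine ⟨f, hf, fun x => ?_⟩
    rw [hgT x, hfg x, prod_insert ha]
    ring

/-! ### nodes -/

/-- different heights give different values of `e^{2 i x}` -/
theorem exp_inj {x y : ℂ} (h : x.im ≠ y.im) : cexp (2 * (I * x)) ≠ cexp (2 * (I * y)) := by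
  intro e
  have h1 := congrArg norm e
  rw [Complex.norm_exp, Complex.norm_exp, Real.exp_eq_exp] at h1
  apply h
  simp at h1
  exact h1

/-- `D + 1` nodes determine the function -/
theorem eq_of_nodes (h : TS D f) (h' : TS D g) {v : ℕ → ℂ}
    (hv : ∀ i ≤ D, ∀ j ≤ D, i ≠ j → (v i).im ≠ (v j).im) (e : ∀ i ≤ D, f (v i) = g (v i)) (x : ℂ) :
    f x = g x := by
  obtain ⟨P, hP, hf⟩ := h
  obtain ⟨Q, hQ, hg⟩ := h'
  have h1 : P = Q := by
    have hinj : Set.InjOn (fun i => cexp (2 * (I * v i))) (range (D + 1) : Finset ℕ) := by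
      intro i hi j hj hij
      by_contra hne
      have hi' : i ≤ D := by
        have := mem_range.1 (Finset.mem_coe.1 hi)
        omega
      have hj' : j ≤ D := by
        have := mem_range.1 (Finset.mem_coe.1 hj)
        omega
      exact exp_inj (hv i hi' j hj' hne) hij
    refine Polynomial.eq_of_degrees_lt_of_eval_index_eq (s := range (D + 1)) hinj ?_ ?_ ?_
    · rw [card_range]
      refine lt_of_le_of_lt degree_le_natDegree ?_
      exact_mod_cast (by omega : P.natDegree < D + 1)
    · rw [card_range]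
      refine lt_of_le_of_lt degree_le_natDegree ?_
      exact_mod_cast (by omega : Q.natDegree < D + 1)
    · intro i hi
      have hi' : i ≤ D := by
        have := mem_range.1 hi
        omega
      show P.eval (cexp (2 * (I * v i))) = Q.eval (cexp (2 * (I * v i)))
      rw [← hf, ← hg, e i hi']
  have h2 := hf x
  rw [h1, ← hg x] at h2
  exact mul_right_cancel₀ (Complex.exp_ne_zero _) h2

/-- Lagrange basis -/
def LB (D : ℕ) (v : ℕ → ℂ) (j : ℕ) (x : ℂ) : ℂ :=
  ∏ k ∈ (range (D + 1)).erase j, (Complex.sin (x - v k) * (Complex.sin (v j - v k))⁻¹)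

theorem LB_TS {v : ℕ → ℂ} {j : ℕ} (hj : j ≤ D) : TS D (LB D v j) := by
  have h := prod ((range (D + 1)).erase j) (d := fun _ => 1)
    (F := fun k x => Complex.sin (x - v k) * (Complex.sin (v j - v k))⁻¹)
    (fun k _ => (sin_sub (v k)).mulc _)
  rw [sum_const, card_erase_of_mem (mem_range.2 (by omega)), card_range] at h
  exact h.cast (by simp)

theorem sin_ne {w : ℂ} (h : w.im ≠ 0) : Complex.sin w ≠ 0 := by
  intro h0
  rw [Complex.sin_eq_zero_iff] at h0
  obtain ⟨k, hk⟩ := h0
  apply h
  rw [hk]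
  simp

theorem LB_node {v : ℕ → ℂ} (hv : ∀ i ≤ D, ∀ j ≤ D, i ≠ j → (v i).im ≠ (v j).im) {i j : ℕ}
    (hi : i ≤ D) (hj : j ≤ D) : LB D v j (v i) = if i = j then 1 else 0 := by
  unfold LB
  split_ifs with h
  · subst h
    refine prod_eq_one fun k hk => ?_
    have hk' : k ≠ i ∧ k < D + 1 := by simpa using hk
    refine mul_inv_cancel₀ (sin_ne ?_)
    rw [sub_im, sub_ne_zero]
    exact hv i hi k (by omega) (Ne.symm hk'.1)
  · refine prod_eq_zero (i := i) (mem_erase.2 ⟨h, mem_range.2 (by omega)⟩) ?_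
    rw [sub_self, Complex.sin_zero, zero_mul]

/-- **Lagrange interpolation** -/
theorem lagrange (h : TS D f) {v : ℕ → ℂ}
    (hv : ∀ i ≤ D, ∀ j ≤ D, i ≠ j → (v i).im ≠ (v j).im) (x : ℂ) :
    f x = ∑ j ∈ range (D + 1), f (v j) * LB D v j x := by
  have h1 : TS D fun x => ∑ j ∈ range (D + 1), f (v j) * LB D v j x := by
    refine sum _ fun j hj => ?_
    exact (LB_TS (by have := mem_range.1 hj; omega)).cmul _
  refine h.eq_of_nodes h1 hv (fun i hi => ?_) x
  show f (v i) = ∑ j ∈ range (D + 1), f (v j) * LB D v j (v i)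
  rw [sum_eq_single_of_mem i (mem_range.2 (by omega)), LB_node hv hi hi, if_pos rfl, mul_one]
  intro j hj hji
  rw [LB_node hv hi (by have := mem_range.1 hj; omega), if_neg (Ne.symm hji), mul_zero]

/-- trigonometric polynomials are entire -/
theorem differentiable (h : TS D f) : Differentiable ℂ f := by
  obtain ⟨P, -, e⟩ := h
  have h1 : f = fun x => P.eval (cexp (2 * (I * x))) * cexp (-(D * (I * x))) := by
    funext x
    rw [← e x, mul_assoc, ← Complex.exp_add, add_neg_cancel, Complex.exp_zero, mul_one]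
  rw [h1]
  have h2 : Differentiable ℂ fun x : ℂ => P.eval (cexp (2 * (I * x))) :=
    P.differentiable.comp (by fun_prop)
  exact h2.mul (by fun_prop)

/-- **the limit lemma**: convergence at `D + 1` nodes implies convergence everywhere, locally
uniformly -/
theorem lim {α : Type*} {F : Filter α} {f : α → ℂ → ℂ} (h : ∀ᶠ a in F, TS D (f a)) {v : ℕ → ℂ}
    (hv : ∀ i ≤ D, ∀ j ≤ D, i ≠ j → (v i).im ≠ (v j).im) {G : ℕ → ℂ}
    (hg : ∀ i ≤ D, Tendsto (fun a => f a (v i)) F (𝓝 (G i))) :
    ∃ g, TS D g ∧ (∀ i ≤ D, g (v i) = G i) ∧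
      ∀ {β : Type} {F' : Filter β} {a : β → α} {x : β → ℂ} {x0 : ℂ}, Tendsto a F' F →
        Tendsto x F' (𝓝 x0) → Tendsto (fun b => f (a b) (x b)) F' (𝓝 (g x0)) := by
  refine ⟨fun x => ∑ j ∈ range (D + 1), G j * LB D v j x, ?_, ?_, ?_⟩
  · refine sum _ fun j hj => ?_
    exact (LB_TS (by have := mem_range.1 hj; omega)).cmul _
  · intro i hi
    show ∑ j ∈ range (D + 1), G j * LB D v j (v i) = G i
    rw [sum_eq_single_of_mem i (mem_range.2 (by omega)), LB_node hv hi hi, if_pos rfl, mul_one]
    intro j hj hji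
    rw [LB_node hv hi (by have := mem_range.1 hj; omega), if_neg (Ne.symm hji), mul_zero]
  · intro β F' a x x0 ha hx
    have h1 : Tendsto (fun b => ∑ j ∈ range (D + 1), f (a b) (v j) * LB D v j (x b)) F'
        (𝓝 (∑ j ∈ range (D + 1), G j * LB D v j x0)) := by
      refine tendsto_finsetSum _ fun j hj => ?_
      have hj' : j ≤ D := by
        have := mem_range.1 hj
        omega
      refine ((hg j hj').comp ha).mul ?_
      have hc : Continuous (LB D v j) := (LB_TS hj').differentiable.continuous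
      exact (hc.tendsto x0).comp hx
    refine h1.congr' ?_
    filter_upwards [ha.eventually h] with b hb
    exact (hb.lagrange hv (x b)).symm

end TS

end RX

end
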